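import Pool.Agent.Helper29.Zeta.Final

/-!
# Division by a monic polynomial in `q`, and descent of meromorphy
-/

set_option autoImplicit false

open AlgebraicGeometry CategoryTheory

namespace Pool.Agent.Helper29.Zeta

/-- gluing a compatible sequence of functions meromorphic on growing half planes -/
lemma glue (F : ℕ → ℂ → ℂ) (σ₀ : ℝ)
    (merF : ∀ (J : ℕ) (s : ℂ), σ₀ < s.re + J → MeromorphicAt (F J) s)
    (step : ∀ (J : ℕ) (s : ℂ), σ₀ < s.re + J → F (J + 1) s = F J s) :
    ∃ F' : ℂ → ℂ, MeromorphicOn F' Set.univ ∧ ∀ s : ℂ, σ₀ < s.re → F' s = F 0 s := by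
  have step' : ∀ (J k : ℕ) (s : ℂ), σ₀ < s.re + J → F (J + k) s = F J s := by
    intro J k s hs
    induction k with
    | zero => rfl
    | succ k ih =>
      rw [← add_assoc, step (J + k) s (by push_cast; linarith [Nat.cast_nonneg (α := ℝ) k]), ih]
  have hle : ∀ (J J' : ℕ) (s : ℂ), J ≤ J' → σ₀ < s.re + J → F J' s = F J s := by
    intro J J' s hJ hs
    obtain ⟨k, rfl⟩ := Nat.exists_eq_add_of_le hJ
    exact step' J k s hs
  set idx : ℂ → ℕ := fun s => ⌈σ₀ - s.re⌉₊ + 1 with hidx
  have idx_spec : ∀ s, σ₀ < s.re + idx s := by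
    intro s
    simp only [hidx]
    push_cast
    linarith [Nat.le_ceil (σ₀ - s.re)]
  refine ⟨fun s => F (idx s) s, ?_, fun s hs => ?_⟩
  · intro s₀ _
    refine (merF (idx s₀) s₀ (idx_spec s₀)).congr ?_
    refine Filter.Eventually.filter_mono nhdsWithin_le_nhds ?_
    have hopen : IsOpen {s : ℂ | σ₀ < s.re + idx s₀} :=
      isOpen_lt continuous_const (Complex.continuous_re.add continuous_const)
    filter_upwards [hopen.mem_nhds (idx_spec s₀)] with s hs
    rcases le_total (idx s) (idx s₀) with hle' | hle'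
    · exact hle _ _ s hle' (idx_spec s)
    · exact (hle _ _ s hle' hs).symm
  · have h0 : σ₀ < s.re + (0 : ℕ) := by simpa using hs
    exact hle 0 (idx s) s (Nat.zero_le _) h0

lemma D_int_mul (c : ℕ → ℂ) (m : ℤ) (s : ℂ) : D (fun n => (m : ℂ) * c n) s = m * D c s := by
  have h : coef (fun n => (m : ℂ) * c n) = (m : ℂ) • coef c := by
    funext n; simp only [coef, Pi.smul_apply, smul_eq_mul]; ring
  rw [D, h, LSeries_smul]; rfl

lemma D_shift_pow (c : ℕ → ℂ) (i : ℕ) (s : ℂ) :
    D (fun n => (n : ℂ) ^ i * c n) s = D c (s - i) := by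
  induction i generalizing s with
  | zero => simp
  | succ i ih =>
    have h : (fun n : ℕ => (n : ℂ) ^ (i + 1) * c n) =
        fun n : ℕ => (n : ℂ) * ((n : ℂ) ^ i * c n) := by
      funext n; rw [pow_succ]; ring
    rw [h, D_shift (fun n => (n : ℂ) ^ i * c n) s, ih]
    congr 1; push_cast; ring

lemma Growth.sum {c : ℕ → ℕ → ℂ} (d : ℕ) (h : ∀ i, Growth (c i)) :
    Growth (fun n => ∑ i ∈ Finset.range d, c i n) := by
  induction d with
  | zero => simpa using Growth.const 0
  | succ d ih => simpa only [Finset.sum_range_succ] using ih.add (h d)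

lemma D_sum {c : ℕ → ℕ → ℂ} (d : ℕ) (h : ∀ i, Growth (c i)) :
    ∃ x : ℝ, ∀ s : ℂ, x < s.re → D (fun n => ∑ i ∈ Finset.range d, c i n) s =
      ∑ i ∈ Finset.range d, D (c i) s := by
  induction d with
  | zero =>
    refine ⟨0, fun s _ => ?_⟩
    have h0 : coef (fun _ => (0 : ℂ)) = 0 := by funext n; simp [coef]
    simp only [Finset.range_zero, Finset.sum_empty, D, h0]
    simp
  | succ d ih =>
    obtain ⟨x, hx⟩ := ih
    obtain ⟨x', hx'⟩ := D_add (Growth.sum d h) (h d)
    refine ⟨max x x', fun s hs => ?_⟩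
    have e : (fun n => ∑ i ∈ Finset.range (d + 1), c i n) =
        fun n => (∑ i ∈ Finset.range d, c i n) + c d n := by
      funext n; rw [Finset.sum_range_succ]
    rw [e, hx' s ((max_lt_iff.mp hs).2), hx s ((max_lt_iff.mp hs).1), Finset.sum_range_succ]

/-- **Division by a monic polynomial in `q`.** -/
theorem Mero.of_monic {c : ℕ → ℂ} (hc : Growth c) {P : Polynomial ℤ} (hP : P.Monic)
    (h : Mero (fun n => ((P.eval (n : ℤ) : ℤ) : ℂ) * c n)) : Mero c := by
  set d := P.natDegree with hd
  rcases Nat.eq_zero_or_pos d with h0 | hpos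
  · have : P = 1 := hP.natDegree_eq_zero.mp (hd.symm.trans h0)
    simpa [this] using h
  obtain ⟨G, hG, σ, H⟩ := h
  obtain ⟨x, hx⟩ := hc.analytic
  set ci : ℕ → ℕ → ℂ := fun i n => (P.coeff i : ℂ) * ((n : ℂ) ^ i * c n) with hci
  have hgi : ∀ i, Growth (ci i) := fun i =>
    (Growth.const _).mul ((growth_pow i).mul hc)
  obtain ⟨x', hx'⟩ := D_sum (d + 1) hgi
  have hsum : (fun n : ℕ => ((P.eval (n : ℤ) : ℤ) : ℂ) * c n) =
      fun n => ∑ i ∈ Finset.range (d + 1), ci i n := by
    funext n
    rw [Polynomial.eval_eq_sum_range]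
    push_cast
    rw [Finset.sum_mul]
    exact Finset.sum_congr rfl fun i _ => by simp only [hci]; ring
  have hlead : P.coeff d = 1 := hP.coeff_natDegree
  set Z : ℂ → ℂ := fun s => Complex.exp (D c s) with hZ
  set σ₀ : ℝ := max x (max σ x') with hσ₀
  have rec1 : ∀ s : ℂ, σ₀ < s.re →
      Z s = G (s + d) * ∏ i ∈ Finset.range d, Z (s + d - i) ^ (-(P.coeff i)) := by
    intro s hs
    have h1 := (max_lt_iff.mp hs).1
    have h2 := (max_lt_iff.mp (max_lt_iff.mp hs).2)
    have h3 : (s + (d : ℂ)).re = s.re + d := by simp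
    have hd0 : (0 : ℝ) ≤ d := Nat.cast_nonneg _
    rw [H (s + d) (by rw [h3]; linarith), hsum, hx' (s + d) (by rw [h3]; linarith)]
    have h4 : ∀ i, D (ci i) (s + d) = (P.coeff i : ℂ) * D c (s + d - i) := by
      intro i
      simp only [hci]
      rw [D_int_mul, D_shift_pow]
    simp only [h4]
    have h5 : ∏ i ∈ Finset.range d, Z (s + d - i) ^ (-(P.coeff i)) =
        Complex.exp (∑ i ∈ Finset.range d, -((P.coeff i : ℂ) * D c (s + d - i))) := by
      rw [Complex.exp_sum]
      refine Finset.prod_congr rfl fun i _ => ?_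
      rw [hZ]
      simp only
      rw [← Complex.exp_int_mul]
      push_cast
      congr 1; ring
    rw [h5, ← Complex.exp_add, Finset.sum_range_succ, hlead, Finset.sum_neg_distrib, hZ]
    simp only
    congr 1
    rw [add_sub_cancel_right]
    push_cast; ring
  let F : ℕ → ℂ → ℂ := fun J => Nat.rec Z (fun _ FJ s =>
    G (s + d) * ∏ i ∈ Finset.range d, FJ (s + d - i) ^ (-(P.coeff i))) J
  have F0 : F 0 = Z := rfl
  have Fs : ∀ J s, F (J + 1) s =
      G (s + d) * ∏ i ∈ Finset.range d, F J (s + d - i) ^ (-(P.coeff i)) := fun J s => rfl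
  have hre : ∀ (s : ℂ) (i : ℕ), i < d → s.re + 1 ≤ (s + d - i).re := by
    intro s i hi
    have h1 : (s + (d : ℂ) - (i : ℂ)).re = s.re + d - i := by simp
    have h2 : (i : ℝ) + 1 ≤ d := by exact_mod_cast hi
    rw [h1]; linarith
  have step : ∀ (J : ℕ) (s : ℂ), σ₀ < s.re + J → F (J + 1) s = F J s := by
    intro J
    induction J with
    | zero =>
      intro s hs
      rw [Fs, F0]
      exact (rec1 s (by simpa using hs)).symm
    | succ J ih =>
      intro s hs
      rw [Fs (J + 1), Fs J]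
      congr 1
      refine Finset.prod_congr rfl fun i hi => ?_
      rw [ih]
      have := hre s i (Finset.mem_range.mp hi)
      push_cast at hs
      linarith
  have merF : ∀ (J : ℕ) (s : ℂ), σ₀ < s.re + J → MeromorphicAt (F J) s := by
    intro J
    induction J with
    | zero =>
      intro s hs
      rw [F0]
      have hs' : σ₀ < s.re := by simpa using hs
      exact (AnalyticAt.cexp' (f := D c) (hx s (lt_of_le_of_lt (le_max_left _ _) hs'))).meromorphicAt
    | succ J ih =>
      intro s hs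
      refine MeromorphicAt.mul (f := fun s => G (s + d))
        (g := fun s => ∏ i ∈ Finset.range d, F J (s + d - i) ^ (-(P.coeff i))) ?_ ?_
      · exact mero_translate hG _ s trivial
      · refine MeromorphicAt.fun_prod fun i hi => ?_
        have h1 := hre s i (Finset.mem_range.mp hi)
        have h2 : MeromorphicAt (F J) (s + d - i) := by
          refine ih _ ?_
          push_cast at hs
          linarith
        have h3 : AnalyticAt ℂ (fun s : ℂ => s + (d : ℂ) - (i : ℂ)) s := by fun_prop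
        have h4 : MeromorphicAt (fun s : ℂ => F J (s + d - i)) s :=
          MeromorphicAt.comp_analyticAt (f := F J) (g := fun s : ℂ => s + (d : ℂ) - (i : ℂ)) h2 h3
        exact h4.fun_zpow _
  obtain ⟨F', hF', hF0⟩ := glue F σ₀ merF step
  exact ⟨F', hF', σ₀, fun s hs => by rw [hF0 s hs, F0]⟩

lemma Mero.int_mul {c : ℕ → ℂ} (m : ℤ) (h : Mero c) : Mero (fun n => (m : ℂ) * c n) := by
  obtain ⟨F, hF, σ, H⟩ := h
  refine ⟨fun s => F s ^ m, fun z _ => (hF z trivial).fun_zpow m, σ, fun s hs => ?_⟩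
  show F s ^ m = _
  rw [H s hs, D_int_mul, Complex.exp_int_mul]

lemma Mero.sum {c : ℕ → ℕ → ℂ} (d : ℕ) (hg : ∀ i, Growth (c i)) (h1 : Mero (fun _ => 0))
    (h : ∀ i, Mero (c i)) : Mero (fun n => ∑ i ∈ Finset.range d, c i n) := by
  induction d with
  | zero => simpa using h1
  | succ d ih =>
    simp only [Finset.sum_range_succ]
    exact Mero.add (Growth.sum d hg) (hg d) ih (h d)

lemma mero_zero : Mero (fun _ => 0) := by
  refine ⟨fun _ => 1, fun z _ => MeromorphicAt.const 1 z, 0, fun s _ => ?_⟩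
  have : coef (fun _ => (0 : ℂ)) = 0 := by
    funext n; simp [coef]
  show (1 : ℂ) = Complex.exp (LSeries (coef (fun _ => (0 : ℂ))) s)
  rw [this]
  simp

/-- multiplication by an integer polynomial in `q` -/
theorem Mero.mul_poly {c : ℕ → ℂ} (hc : Growth c) (P : Polynomial ℤ) (h : Mero c) :
    Mero (fun n => ((P.eval (n : ℤ) : ℤ) : ℂ) * c n) := by
  have hgi : ∀ i, Growth (fun n => (P.coeff i : ℂ) * ((n : ℂ) ^ i * c n)) := fun i =>
    (Growth.const _).mul ((growth_pow i).mul hc)
  refine (Mero.sum (P.natDegree + 1) hgi mero_zero (fun i => (h.shift_pow i).int_mul _)).congr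
    fun n _ => ?_
  rw [Polynomial.eval_eq_sum_range]
  push_cast
  rw [Finset.sum_mul]
  exact Finset.sum_congr rfl fun i _ => by ring

/-! ### Counting functions of schemes -/

/-- the number of points over the field with `n` elements -/
noncomputable def ptCount (X : Scheme.{0}) (n : ℕ) : ℝ :=
  (Nat.card (Spec (CommRingCat.of (FF n)) ⟶ X) : ℝ)

lemma isMaximal_of_finite {A : Type*} [CommRing A] (y : PrimeSpectrum A)
    (h : Finite y.asIdeal.ResidueField) : y.asIdeal.IsMaximal := by
  have hfin2 : Finite (A ⧸ y.asIdeal) :=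
    Finite.of_injective _ (Ideal.injective_algebraMap_quotient_residueField y.asIdeal)
  exact Ideal.Quotient.maximal_of_isField _ (Finite.isField_of_domain _)

lemma isMaximal_of_hom {X : Scheme.{0}} {A : CommRingCat.{0}} (j : Spec A ⟶ X)
    [IsOpenImmersion j] (y : Spec A) (k : Type) [Field k] [Finite k]
    (φ : X.residueField (j y) →+* k) : y.asIdeal.IsMaximal := by
  have hp : y.asIdeal.IsPrime := PrimeSpectrum.isPrime y
  have e1 : X.residueField (j y) ≅ (Spec A).residueField y := asIso (j.residueFieldMap y)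
  have e2 : (Spec A).residueField y ≅ .of y.asIdeal.ResidueField :=
    Scheme.Spec.residueFieldIso A y
  let e := (e1 ≪≫ e2).commRingCatIsoToRingEquiv
  have hfin : Finite (X.residueField (j y)) := Finite.of_injective φ φ.injective
  exact isMaximal_of_finite y (Finite.of_injective _ e.symm.injective)

/-- the image of a point with values in a finite field is closed -/
lemma isClosed_of_hom {X : Scheme.{0}} (f : X ⟶ Spec (CommRingCat.of ℤ))
    [LocallyOfFiniteType f] [JacobsonSpace X] (x : X) (k : Type) [Field k] [Finite k]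
    (φ : X.residueField x →+* k) : IsClosed ({x} : Set X) := by
  obtain ⟨A, j, hj, ⟨y, rfl⟩, _⟩ :=
    Scheme.exists_affine_mem_range_and_range_subset (TopologicalSpace.Opens.mem_top x)
  have h1 := j.isOpenEmbedding.preimage_closedPoints
  have h2 : j y ∈ closedPoints X ↔ y ∈ closedPoints (Spec A) := by
    rw [← h1]; rfl
  exact h2.mpr ((PrimeSpectrum.isClosed_singleton_iff_isMaximal _).mpr
    (isMaximal_of_hom j y k φ))

lemma card_sigma_of_hasSum {P : Type*} (F : P → Type*) [∀ x, Finite (F x)] {c : ℝ}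
    (h : HasSum (fun x => (Nat.card (F x) : ℝ)) c) : (Nat.card (Σ x, F x) : ℝ) = c := by
  classical
  have hfin : Set.Finite {x | Nonempty (F x)} := by
    have h1 := h.summable.tendsto_cofinite_zero
    have h2 : ∀ᶠ x in Filter.cofinite, (Nat.card (F x) : ℝ) < 1 :=
      h1.eventually_lt_const one_pos
    refine Set.Finite.subset (Filter.eventually_cofinite.mp h2) ?_
    intro x hx
    have : Nonempty (F x) := hx
    have h3 : 0 < Nat.card (F x) := Nat.card_pos
    show ¬ ((Nat.card (F x) : ℝ) < 1)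
    rw [not_lt]
    exact_mod_cast h3
  have hS : Finite {x | Nonempty (F x)} := hfin
  have hT : Finite (Σ x, F x) := by
    refine Finite.of_injective
      (fun t : (Σ x, F x) => (⟨⟨t.1, ⟨t.2⟩⟩, t.2⟩ : Σ x : {x | Nonempty (F x)}, F x.1)) ?_
    rintro ⟨x, a⟩ ⟨x', a'⟩ h
    simp only [Sigma.mk.injEq, Subtype.mk.injEq] at h
    obtain ⟨h1, h2⟩ := h
    subst h1
    simpa using h2
  have h1 := hasSum_fiber (fun t : (Σ x, F x) => t.1)
  have h2 : (fun x : P => (Nat.card {t : (Σ x, F x) // t.1 = x} : ℝ)) =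
      fun x => (Nat.card (F x) : ℝ) := by
    funext x
    congr 1
    exact Nat.card_congr (Equiv.sigmaSubtype x)
  rw [h2] at h1
  exact h1.unique h

lemma exists_count {X : Scheme.{0}} (f : X ⟶ Spec (CommRingCat.of ℤ)) [LocallyOfFiniteType f]
    [QuasiCompact f] : ∃ c : ℕ → ℝ, Growth (fun n => (c n : ℂ)) ∧
      HasCount (Set.univ : Set X) c := by
  have hJ : JacobsonSpace X := LocallyOfFiniteType.jacobsonSpace f
  have hcomp : CompactSpace X := QuasiCompact.compactSpace_of_compactSpace f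
  have key : ∃ c : ℕ → ℝ, Growth (fun n => (c n : ℂ)) ∧
      HasCount ((⊤ : X.Opens) : Set X) c := by
    refine compact_open_induction_on
      (P := fun S : X.Opens => ∃ c : ℕ → ℝ, Growth (fun n => (c n : ℂ)) ∧
        HasCount (S : Set X) c) ⊤ isCompact_univ ?_ ?_
    · exact ⟨fun _ => 0, by simpa using Growth.const 0, HasCount.empty⟩
    · rintro S _ U ⟨c, hg, hc⟩
      have hUimm : IsOpenImmersion U.2.fromSpec := U.2.isOpenImmersion_fromSpec
      have hfg : Algebra.FiniteType ℤ Γ(X, U) := finiteType_of_imm f U.2.fromSpec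
      have hZ : IsClosed (U.2.fromSpec ⁻¹' ((S : Set X)ᶜ)) :=
        S.isOpen.isClosed_compl.preimage U.2.fromSpec.continuous
      have h1 := hasCount_stratum U.2.fromSpec ((S : Set X)ᶜ) hZ
      rw [U.2.range_fromSpec] at h1
      have hd : Disjoint (S : Set X) ((U : Set X) ∩ (S : Set X)ᶜ) := by
        rw [Set.disjoint_left]; intro x hx hx'; exact hx'.2 hx
      have h2 := hc.union h1 hd
      have e : (S : Set X) ∪ ((U : Set X) ∩ (S : Set X)ᶜ) = ((S ⊔ U : X.Opens) : Set X) := by
        ext x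
        simp only [Set.mem_union, Set.mem_inter_iff, Set.mem_compl_iff,
          TopologicalSpace.Opens.coe_sup]
        tauto
      rw [e] at h2
      exact ⟨_, by simpa using hg.add (growth_cnt Γ(X, U) _), h2⟩
  obtain ⟨c, hg, hc⟩ := key
  exact ⟨c, hg, hc⟩

/-- the counting function of `X` -/
lemma ptCount_eq {X : Scheme.{0}} (f : X ⟶ Spec (CommRingCat.of ℤ)) [LocallyOfFiniteType f]
    [QuasiCompact f] {c : ℕ → ℝ} (hc : HasCount (Set.univ : Set X) c) (n : ℕ)
    (hn : IsPrimePow n) : ptCount X n = c n := by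
  have hJ : JacobsonSpace X := LocallyOfFiniteType.jacobsonSpace f
  have hfinκ : ∀ x : clPts (Set.univ : Set X), Finite (X.residueField x.1) := fun x =>
    Nat.finite_of_card_ne_zero (isPrimePow_card f x.1 x.2.2).ne_zero
  have hfin : ∀ x : clPts (Set.univ : Set X), Finite (X.residueField x.1 →+* FF n) := fun x =>
    Finite.of_injective (fun φ => (φ : X.residueField x.1 → FF n)) DFunLike.coe_injective
  have h1 : HasSum (fun x : clPts (Set.univ : Set X) =>
      (Nat.card (X.residueField x.1 →+* FF n) : ℝ)) (c n) := by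
    have h2 : (fun x : clPts (Set.univ : Set X) =>
        (Nat.card (X.residueField x.1 →+* FF n) : ℝ)) =
        ((fun x : X => (mult (Nat.card (X.residueField x)) n : ℝ)) ∘
          ((↑) : clPts (Set.univ : Set X) → X)) := by
      funext x
      have := hfinκ x
      rw [card_ringHom, card_FF hn]
      rfl
    rw [h2]
    exact hc n hn
  rw [← card_sigma_of_hasSum _ h1]
  unfold ptCount
  congr 1
  refine (Nat.card_congr (Scheme.SpecToEquivOfField (FF n) X)).trans (Nat.card_congr
    { toFun := fun t => ⟨⟨t.1, trivial, isClosed_of_hom f t.1 (FF n) t.2.hom⟩, t.2.hom⟩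
      invFun := fun t => ⟨t.1.1, CommRingCat.ofHom t.2⟩
      left_inv := fun t => rfl
      right_inv := fun t => rfl })

lemma zetaMero_iff {X : Scheme.{0}} (f : X ⟶ Spec (CommRingCat.of ℤ)) [LocallyOfFiniteType f]
    [QuasiCompact f] : Growth (fun n => (ptCount X n : ℂ)) ∧
      (ZetaMero X ↔ Mero (fun n => (ptCount X n : ℂ))) := by
  have hJ : JacobsonSpace X := LocallyOfFiniteType.jacobsonSpace f
  obtain ⟨c, hg, hc⟩ := exists_count f
  have he : ∀ n, IsPrimePow n → (c n : ℂ) = (ptCount X n : ℂ) := fun n hn => by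
    rw [ptCount_eq f hc n hn]
  refine ⟨hg.congr he, ?_⟩
  obtain ⟨σ, hσ⟩ := euler_scheme f hg hc
  constructor
  · rintro ⟨F, hF, σ', hσ'⟩
    refine Mero.congr ?_ he
    refine ⟨F, hF, max σ σ', fun s hs => ?_⟩
    rw [hσ' s ((max_lt_iff.mp hs).2), hσ s ((max_lt_iff.mp hs).1)]
  · intro h
    obtain ⟨F, hF, σ', hσ'⟩ := Mero.congr h (fun n hn => (he n hn).symm)
    refine ⟨F, hF, max σ σ', fun s hs => ?_⟩
    rw [hσ' s ((max_lt_iff.mp hs).2), hσ s ((max_lt_iff.mp hs).1)]

/-- **Descent of meromorphy.** -/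
theorem descent (X Y : Scheme.{0}) (f : X ⟶ Spec (CommRingCat.of ℤ))
    (g : Y ⟶ Spec (CommRingCat.of ℤ)) (hf : LocallyOfFiniteType f) (hf' : QuasiCompact f)
    (hg : LocallyOfFiniteType g) (hg' : QuasiCompact g) (P : Polynomial ℤ) (hP : P.Monic)
    (h : ∀ (k : Type) [Field k] [Finite k], (Nat.card (Spec (CommRingCat.of k) ⟶ Y) : ℤ) =
      P.eval (Nat.card k : ℤ) * (Nat.card (Spec (CommRingCat.of k) ⟶ X) : ℤ)) :
    ZetaMero X ↔ ZetaMero Y := by
  obtain ⟨hgX, hX⟩ := zetaMero_iff f
  obtain ⟨hgY, hY⟩ := zetaMero_iff g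
  have he : ∀ n : ℕ, IsPrimePow n →
      ((P.eval (n : ℤ) : ℤ) : ℂ) * (ptCount X n : ℂ) = (ptCount Y n : ℂ) := by
    intro n hn
    have h1 := h (FF n)
    rw [card_FF hn] at h1
    have h2 := congrArg (fun z : ℤ => (z : ℂ)) h1
    unfold ptCount
    push_cast at h2 ⊢
    exact h2.symm
  rw [hX, hY]
  constructor
  · intro h1
    exact (Mero.mul_poly hgX P h1).congr he
  · intro h1
    exact Mero.of_monic hgX hP (h1.congr fun n hn => (he n hn).symm)

end Pool.Agent.Helper29.Zeta
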