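import Mathlib

/-!
# Zeta functions attached to functions on prime powers

For `c : ℕ → ℂ` (only its values at prime powers matter) let
`Z_c(s) = exp (∑ c(p^k) p^(-ks)/k)`.  `Mero c` says that `Z_c`, which is defined on a right
half plane when `c` has polynomial growth, agrees there with a function meromorphic on `ℂ`.
-/

set_option autoImplicit false

open Complex
open ArithmeticFunction (vonMangoldt_apply vonMangoldt_nonneg vonMangoldt_le_log)
open scoped ArithmeticFunction.vonMangoldt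

namespace Pool.Agent.Helper29.Zeta

/-- the coefficients of the Dirichlet series `∑ c(p^k) p^(-ks)/k` -/
noncomputable def coef (c : ℕ → ℂ) : ℕ → ℂ :=
  fun n => c n * ((Λ n / Real.log n : ℝ) : ℂ)

/-- the Dirichlet series `∑ c(p^k) p^(-ks)/k` -/
noncomputable def D (c : ℕ → ℂ) (s : ℂ) : ℂ := LSeries (coef c) s

/-- polynomial growth at prime powers -/
def Growth (c : ℕ → ℂ) : Prop :=
  ∃ C : ℝ, ∃ a : ℕ, ∀ n : ℕ, IsPrimePow n → ‖c n‖ ≤ C * (n : ℝ) ^ a

/-- `exp (D c)` continues to a function meromorphic on `ℂ` -/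
def Mero (c : ℕ → ℂ) : Prop :=
  ∃ F : ℂ → ℂ, MeromorphicOn F Set.univ ∧ ∃ σ : ℝ, ∀ s : ℂ, σ < s.re → F s = exp (D c s)

lemma coef_of_not {c : ℕ → ℂ} {n : ℕ} (h : ¬ IsPrimePow n) : coef c n = 0 := by
  simp [coef, vonMangoldt_apply, h]

lemma coef_congr {c c' : ℕ → ℂ} (h : ∀ n, IsPrimePow n → c n = c' n) : coef c = coef c' := by
  funext n
  by_cases hn : IsPrimePow n
  · simp [coef, h n hn]
  · rw [coef_of_not hn, coef_of_not hn]

lemma Mero.congr {c c' : ℕ → ℂ} (hc : Mero c) (h : ∀ n, IsPrimePow n → c n = c' n) :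
    Mero c' := by
  unfold Mero D at *
  rw [← coef_congr h]; exact hc

lemma Growth.congr {c c' : ℕ → ℂ} (hc : Growth c) (h : ∀ n, IsPrimePow n → c n = c' n) :
    Growth c' := by
  obtain ⟨C, a, H⟩ := hc
  exact ⟨C, a, fun n hn => by rw [← h n hn]; exact H n hn⟩

lemma norm_ratio_le (n : ℕ) : ‖((Λ n / Real.log n : ℝ) : ℂ)‖ ≤ 1 := by
  rw [Complex.norm_real, Real.norm_eq_abs, abs_div]
  have h1 : |Λ n| ≤ |Real.log n| := by
    rw [abs_of_nonneg vonMangoldt_nonneg]
    exact vonMangoldt_le_log.trans (le_abs_self _)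
  exact div_le_one_of_le₀ h1 (abs_nonneg _)

lemma Growth.nonneg {c : ℕ → ℂ} (hc : Growth c) :
    ∃ C : ℝ, 0 ≤ C ∧ ∃ a : ℕ, ∀ n : ℕ, IsPrimePow n → ‖c n‖ ≤ C * (n : ℝ) ^ a := by
  obtain ⟨C, a, H⟩ := hc
  refine ⟨|C|, abs_nonneg _, a, fun n hn => (H n hn).trans ?_⟩
  gcongr
  exact le_abs_self C

lemma Growth.coef_le {c : ℕ → ℂ} (hc : Growth c) :
    ∃ C : ℝ, 0 ≤ C ∧ ∃ a : ℕ, ∀ n : ℕ, ‖coef c n‖ ≤ C * (n : ℝ) ^ a := by
  obtain ⟨C, h0, a, H⟩ := hc.nonneg
  refine ⟨C, h0, a, fun n => ?_⟩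
  by_cases hn : IsPrimePow n
  · calc ‖coef c n‖ = ‖c n‖ * ‖((Λ n / Real.log n : ℝ) : ℂ)‖ := norm_mul _ _
      _ ≤ ‖c n‖ * 1 := by gcongr; exact norm_ratio_le n
      _ = ‖c n‖ := mul_one _
      _ ≤ _ := H n hn
  · rw [coef_of_not hn, norm_zero]; positivity

lemma Growth.summable {c : ℕ → ℂ} (hc : Growth c) :
    ∃ x : ℝ, ∀ s : ℂ, x < s.re → LSeriesSummable (coef c) s := by
  obtain ⟨C, h0, a, H⟩ := hc.coef_le
  refine ⟨a + 1, fun s hs => LSeriesSummable_of_le_const_mul_rpow hs ⟨C, fun n _ => ?_⟩⟩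
  have : ((a : ℝ) + 1 - 1) = (a : ℝ) := by ring
  rw [this, Real.rpow_natCast]
  exact H n

lemma Growth.analytic {c : ℕ → ℂ} (hc : Growth c) :
    ∃ x : ℝ, ∀ s : ℂ, x < s.re → AnalyticAt ℂ (D c) s := by
  obtain ⟨x, hx⟩ := hc.summable
  refine ⟨x, fun s hs => LSeries_analyticOnNhd (coef c) s ?_⟩
  refine lt_of_le_of_lt (b := (((x + s.re) / 2 : ℝ) : EReal)) ?_ ?_
  · refine LSeries.abscissaOfAbsConv_le_of_forall_lt_LSeriesSummable fun y hy => ?_
    refine hx _ ?_
    rw [Complex.ofReal_re]; linarith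
  · rw [EReal.coe_lt_coe_iff]; linarith

lemma Growth.add {c c' : ℕ → ℂ} (hc : Growth c) (hc' : Growth c') :
    Growth (fun n => c n + c' n) := by
  obtain ⟨C, h0, a, H⟩ := hc.nonneg
  obtain ⟨C', h0', a', H'⟩ := hc'.nonneg
  refine ⟨C + C', a + a', fun n hn => ?_⟩
  have h1 : (1 : ℝ) ≤ n := by exact_mod_cast hn.one_lt.le
  calc ‖c n + c' n‖ ≤ ‖c n‖ + ‖c' n‖ := norm_add_le _ _
    _ ≤ C * (n : ℝ) ^ a + C' * (n : ℝ) ^ a' := add_le_add (H n hn) (H' n hn)
    _ ≤ C * (n : ℝ) ^ (a + a') + C' * (n : ℝ) ^ (a + a') := by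
        have e1 : (n : ℝ) ^ a ≤ (n : ℝ) ^ (a + a') := pow_le_pow_right₀ h1 (by omega)
        have e2 : (n : ℝ) ^ a' ≤ (n : ℝ) ^ (a + a') := pow_le_pow_right₀ h1 (by omega)
        exact add_le_add (mul_le_mul_of_nonneg_left e1 h0) (mul_le_mul_of_nonneg_left e2 h0')
    _ = _ := by ring

lemma Growth.neg {c : ℕ → ℂ} (hc : Growth c) : Growth (fun n => - c n) := by
  obtain ⟨C, a, H⟩ := hc
  exact ⟨C, a, fun n hn => by rw [norm_neg]; exact H n hn⟩

lemma Growth.sub {c c' : ℕ → ℂ} (hc : Growth c) (hc' : Growth c') :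
    Growth (fun n => c n - c' n) := by
  simpa only [sub_eq_add_neg] using hc.add hc'.neg

lemma Growth.mul {c c' : ℕ → ℂ} (hc : Growth c) (hc' : Growth c') :
    Growth (fun n => c n * c' n) := by
  obtain ⟨C, h0, a, H⟩ := hc.nonneg
  obtain ⟨C', h0', a', H'⟩ := hc'.nonneg
  refine ⟨C * C', a + a', fun n hn => ?_⟩
  calc ‖c n * c' n‖ = ‖c n‖ * ‖c' n‖ := norm_mul _ _
    _ ≤ (C * (n : ℝ) ^ a) * (C' * (n : ℝ) ^ a') := by
        gcongr
        · exact H n hn
        · exact H' n hn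
    _ = _ := by ring

lemma Growth.const (z : ℂ) : Growth (fun _ => z) :=
  ⟨‖z‖, 0, fun n _ => by simp⟩

lemma Growth.id : Growth (fun n => (n : ℂ)) :=
  ⟨1, 1, fun n _ => by simp⟩

lemma Growth.pow {c : ℕ → ℂ} (hc : Growth c) (k : ℕ) : Growth (fun n => c n ^ k) := by
  induction k with
  | zero => simpa using Growth.const 1
  | succ k ih => simpa only [pow_succ] using ih.mul hc

lemma D_add {c c' : ℕ → ℂ} (hc : Growth c) (hc' : Growth c') :
    ∃ x : ℝ, ∀ s : ℂ, x < s.re → D (fun n => c n + c' n) s = D c s + D c' s := by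
  obtain ⟨x, hx⟩ := hc.summable
  obtain ⟨x', hx'⟩ := hc'.summable
  refine ⟨max x x', fun s hs => ?_⟩
  have h : coef (fun n => c n + c' n) = coef c + coef c' := by
    funext n; simp only [coef, Pi.add_apply]; ring
  rw [D, h, LSeries_add (hx s ((le_max_left _ _).trans_lt hs))
    (hx' s ((le_max_right _ _).trans_lt hs))]
  rfl

lemma D_neg (c : ℕ → ℂ) (s : ℂ) : D (fun n => - c n) s = - D c s := by
  have h : coef (fun n => - c n) = - coef c := by
    funext n; simp only [coef, Pi.neg_apply]; ring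
  rw [D, h, LSeries_neg]; rfl

lemma D_shift (c : ℕ → ℂ) (s : ℂ) : D (fun n => (n : ℂ) * c n) s = D c (s - 1) := by
  unfold D LSeries
  refine tsum_congr fun n => ?_
  rcases Nat.eq_zero_or_pos n with rfl | hn
  · simp
  · have h0 : (n : ℂ) ≠ 0 := Nat.cast_ne_zero.mpr hn.ne'
    rw [LSeries.term_of_ne_zero hn.ne', LSeries.term_of_ne_zero hn.ne',
      Complex.cpow_sub _ _ h0, Complex.cpow_one]
    have h1 : (n : ℂ) ^ s ≠ 0 := by
      rw [Complex.cpow_def_of_ne_zero h0]; exact Complex.exp_ne_zero _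
    simp only [coef]
    field_simp

lemma Mero.add {c c' : ℕ → ℂ} (hc : Growth c) (hc' : Growth c') (h : Mero c) (h' : Mero c') :
    Mero (fun n => c n + c' n) := by
  obtain ⟨F, hF, σ, H⟩ := h
  obtain ⟨F', hF', σ', H'⟩ := h'
  obtain ⟨x, hx⟩ := D_add hc hc'
  refine ⟨F * F', fun z _ => (hF z trivial).mul (hF' z trivial), max x (max σ σ'),
    fun s hs => ?_⟩
  have h1 := (max_lt_iff.mp hs).1
  have h2 := (max_lt_iff.mp (max_lt_iff.mp hs).2)
  rw [Pi.mul_apply, H s h2.1, H' s h2.2, hx s h1, Complex.exp_add]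

lemma Mero.neg {c : ℕ → ℂ} (h : Mero c) : Mero (fun n => - c n) := by
  obtain ⟨F, hF, σ, H⟩ := h
  refine ⟨F⁻¹, fun z _ => (hF z trivial).inv, σ, fun s hs => ?_⟩
  rw [Pi.inv_apply, H s hs, D_neg, Complex.exp_neg]

lemma Mero.sub {c c' : ℕ → ℂ} (hc : Growth c) (hc' : Growth c') (h : Mero c) (h' : Mero c') :
    Mero (fun n => c n - c' n) := by
  simpa only [sub_eq_add_neg] using h.add hc hc'.neg h'.neg

/-- translates of meromorphic functions -/
lemma mero_translate {F : ℂ → ℂ} (hF : MeromorphicOn F Set.univ) (t : ℂ) :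
    MeromorphicOn (fun s => F (s + t)) Set.univ := by
  intro z _
  have h1 : MeromorphicAt F (z + t) := hF (z + t) trivial
  have h2 : AnalyticAt ℂ (fun s : ℂ => s + t) z := by fun_prop
  have h3 : deriv (fun s : ℂ => s + t) z ≠ 0 := by simp
  exact (MeromorphicAt.comp_analyticAt (f := F) (g := fun s : ℂ => s + t) h1 h2)

lemma Mero.shift {c : ℕ → ℂ} (h : Mero c) : Mero (fun n => (n : ℂ) * c n) := by
  obtain ⟨F, hF, σ, H⟩ := h
  refine ⟨fun s => F (s + (-1)), mero_translate hF (-1), σ + 1, fun s hs => ?_⟩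
  have : σ < (s + (-1)).re := by
    simp only [Complex.add_re, Complex.neg_re, Complex.one_re]; linarith
  show F (s + (-1)) = _
  rw [H _ this, D_shift, sub_eq_add_neg]

lemma Mero.of_shift {c : ℕ → ℂ} (h : Mero (fun n => (n : ℂ) * c n)) : Mero c := by
  obtain ⟨F, hF, σ, H⟩ := h
  refine ⟨fun s => F (s + 1), mero_translate hF 1, σ, fun s hs => ?_⟩
  have : σ < (s + 1).re := by
    simp only [Complex.add_re, Complex.one_re]; linarith
  show F (s + 1) = _
  rw [H _ this, D_shift, add_sub_cancel_right]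

lemma Mero.shift_pow {c : ℕ → ℂ} (h : Mero c) (k : ℕ) : Mero (fun n => (n : ℂ) ^ k * c n) := by
  induction k with
  | zero => simpa using h
  | succ k ih =>
    refine ih.shift.congr fun n _ => ?_
    rw [pow_succ]; ring

lemma Mero.of_shift_pow {c : ℕ → ℂ} (k : ℕ) (h : Mero (fun n => (n : ℂ) ^ k * c n)) :
    Mero c := by
  induction k with
  | zero => simpa using h
  | succ k ih =>
    refine ih (Mero.of_shift (h.congr fun n _ => ?_))
    rw [pow_succ]; ring

/-- **Division by `q - 1`.** If the zeta function of `(q - 1) c(q)` is meromorphic on `ℂ`, so is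
that of `c`. -/
lemma Mero.of_mul_sub_one {c : ℕ → ℂ} (hc : Growth c)
    (h : Mero (fun n => ((n : ℂ) - 1) * c n)) : Mero c := by
  obtain ⟨G, hG, σ, H⟩ := h
  obtain ⟨x, hx⟩ := hc.analytic
  obtain ⟨x', hx'⟩ := D_add (c := fun n => (n : ℂ) * c n) (c' := fun n => - c n)
    (Growth.id.mul hc) hc.neg
  set Z : ℂ → ℂ := fun s => exp (D c s) with hZ
  set σ₀ : ℝ := max x (max σ x') with hσ₀
  -- the recursion
  have rec1 : ∀ s : ℂ, σ₀ < s.re → Z s = G (s + 1) * Z (s + 1) := by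
    intro s hs
    have h1 := (max_lt_iff.mp hs).1
    have h2 := (max_lt_iff.mp (max_lt_iff.mp hs).2)
    have h3 : (s + 1).re = s.re + 1 := by simp
    rw [H (s + 1) (by rw [h3]; linarith)]
    have h4 : D (fun n => ((n : ℂ) - 1) * c n) (s + 1) = D c s - D c (s + 1) := by
      have h5 : (fun n : ℕ => ((n : ℂ) - 1) * c n) = fun n : ℕ => (n : ℂ) * c n + - c n := by
        funext n; ring
      rw [h5, hx' (s + 1) (by rw [h3]; linarith), D_shift, D_neg, add_sub_cancel_right]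
      ring
    rw [h4, hZ]
    simp only
    rw [← Complex.exp_add]
    congr 1; ring
  -- the functions `F_J`
  set F : ℕ → ℂ → ℂ := fun J s => (∏ j ∈ Finset.range J, G (s + (j + 1))) * Z (s + J) with hFdef
  have step : ∀ J : ℕ, ∀ s : ℂ, σ₀ < s.re + J → F (J + 1) s = F J s := by
    intro J s hs
    simp only [hFdef]
    have h1 : (s + (J : ℂ)).re = s.re + J := by simp
    rw [Finset.prod_range_succ, rec1 (s + J) (by rw [h1]; exact hs)]
    push_cast
    rw [show s + ((J : ℂ) + 1) = s + J + 1 by ring]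
    ring
  have step' : ∀ (J k : ℕ) (s : ℂ), σ₀ < s.re + J → F (J + k) s = F J s := by
    intro J k s hs
    induction k with
    | zero => rfl
    | succ k ih =>
      rw [← add_assoc, step (J + k) s (by push_cast; linarith [Nat.cast_nonneg (α := ℝ) k]), ih]
  have hle : ∀ (J J' : ℕ) (s : ℂ), J ≤ J' → σ₀ < s.re + J → F J' s = F J s := by
    intro J J' s hJ hs
    obtain ⟨k, rfl⟩ := Nat.exists_eq_add_of_le hJ
    exact step' J k s hs
  have merF : ∀ (J : ℕ) (s : ℂ), σ₀ < s.re + J → MeromorphicAt (F J) s := by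
    intro J s hs
    have h1 : (s + (J : ℂ)).re = s.re + J := by simp
    refine MeromorphicAt.mul (f := fun s => ∏ j ∈ Finset.range J, G (s + (j + 1)))
      (g := fun s => Z (s + J)) ?_ ?_
    · refine MeromorphicAt.fun_prod fun j _ => ?_
      exact mero_translate hG _ s trivial
    · have h2 : AnalyticAt ℂ Z (s + J) := by
        refine AnalyticAt.cexp' (f := D c) ?_
        exact hx _ (by rw [h1]; exact lt_of_le_of_lt (le_max_left _ _) hs)
      have h3 : AnalyticAt ℂ (fun s : ℂ => s + (J : ℂ)) s := by fun_prop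
      exact (AnalyticAt.fun_comp (f := fun s : ℂ => s + (J : ℂ)) (g := Z) h2 h3).meromorphicAt
  -- the glued function
  set idx : ℂ → ℕ := fun s => ⌈σ₀ - s.re⌉₊ + 1 with hidx
  have idx_spec : ∀ s, σ₀ < s.re + idx s := by
    intro s
    simp only [hidx]
    push_cast
    linarith [Nat.le_ceil (σ₀ - s.re)]
  refine ⟨fun s => F (idx s) s, ?_, σ₀, fun s hs => ?_⟩
  · intro s₀ _
    refine (merF (idx s₀) s₀ (idx_spec s₀)).congr ?_
    refine Filter.Eventually.filter_mono nhdsWithin_le_nhds ?_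
    have hopen : IsOpen {s : ℂ | σ₀ < s.re + idx s₀} :=
      isOpen_lt continuous_const (Complex.continuous_re.add continuous_const)
    filter_upwards [hopen.mem_nhds (idx_spec s₀)] with s hs
    rcases le_total (idx s) (idx s₀) with hle' | hle'
    · exact hle _ _ s hle' (idx_spec s)
    · exact (hle _ _ s hle' hs).symm
  · have h0 : σ₀ < s.re + (0 : ℕ) := by simpa using hs
    show F (idx s) s = _
    rw [hle 0 (idx s) s (Nat.zero_le _) h0]
    simp [hFdef, hZ]

end Pool.Agent.Helper29.Zeta
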