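import Pool.Agent.Helper29.Zeta.Geom

/-!
# Counting solutions of bilinear systems and zeros of trilinear forms over a finite field
-/

set_option autoImplicit false

open Finset
open scoped Classical

namespace Pool.Agent.Helper29.Zeta

/-- the value at `(y, y')` of the bilinear form which is the sum of the monomials in `E` -/
def bil {k I J : Type} [Field k] (E : Finset (I × J)) (y : I → k) (y' : J → k) : k :=
  ∑ p ∈ E, y p.1 * y' p.2

/-- indicator of the solutions of a bilinear system -/
noncomputable def ind {k I J K : Type} [Field k] (E : K → Finset (I × J)) (y : I → k)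
    (y' : J → k) : ℝ :=
  if ∀ κ, bil (E κ) y y' = 0 then 1 else 0

lemma ind_congr {k I J K : Type} [Field k] {E E' : K → Finset (I × J)} {y y1 : I → k}
    {y' y1' : J → k} (h : ∀ κ, bil (E κ) y y' = bil (E' κ) y1 y1') :
    ind E y y' = ind E' y1 y1' := by
  unfold ind
  exact if_congr (forall_congr' fun κ => by rw [h κ]) rfl rfl

variable {k : Type} [Field k] [Fintype k]

/-- sums over functions that do not depend on the coordinate `o` -/
lemma sum_update {I : Type} [Fintype I] [DecidableEq I] (o : I) (F : (I → k) → ℝ)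
    (hF : ∀ y z, F (Function.update y o z) = F y) :
    ∑ y : I → k, F y = (Fintype.card k : ℝ) * ∑ y : I → k, if y o = 0 then F y else 0 := by
  rw [← Finset.sum_fiberwise univ (fun y : I → k => y o) F]
  have h : ∀ z : k, ∑ y : I → k with y o = z, F y = ∑ y : I → k with y o = 0, F y := by
    intro z
    refine Finset.sum_nbij' (fun y => Function.update y o 0) (fun y => Function.update y o z)
      ?_ ?_ ?_ ?_ ?_
    · intro y _; simp
    · intro y _; simp
    · intro y hy
      have : y o = z := by simpa using hy
      simp [← this]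
    · intro y hy
      have : y o = 0 := by simpa using hy
      simp [← this]
    · intro y _
      exact (hF y 0).symm
  rw [Finset.sum_congr rfl (fun z _ => h z), Finset.sum_const, Finset.card_univ, nsmul_eq_mul,
    Finset.sum_filter]

/-- zeros of a linear form -/
lemma card_linear {K : Type} [Fintype K] [DecidableEq K] (L : K → k) :
    (Fintype.card k : ℝ) * ∑ z : K → k, (if ∑ κ, L κ * z κ = 0 then (1 : ℝ) else 0) =
      (Fintype.card k : ℝ) ^ (Fintype.card K) *
        (if ∀ κ, L κ = 0 then (Fintype.card k : ℝ) else 1) := by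
  by_cases hL : ∀ κ, L κ = 0
  · simp only [hL, zero_mul, Finset.sum_const_zero, if_true, implies_true]
    simp [mul_comm]
  · rw [if_neg hL, mul_one]
    push Not at hL
    obtain ⟨κ₀, h0⟩ := hL
    have h1 : ∑ z : K → k, (1 : ℝ) = (Fintype.card k : ℝ) ^ (Fintype.card K) := by simp
    rw [← h1, ← Finset.sum_fiberwise univ (fun z : K → k => ∑ κ, L κ * z κ) (fun _ => (1 : ℝ))]
    have h : ∀ c : k, ∑ z : K → k with ∑ κ, L κ * z κ = c, (1 : ℝ) =
        ∑ z : K → k with ∑ κ, L κ * z κ = 0, (1 : ℝ) := by
      intro c
      have hs : ∀ (z : K → k) (t : k), ∑ κ, L κ * (z + (Pi.single κ₀ t : K → k)) κ =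
          ∑ κ, L κ * z κ + L κ₀ * t := by
        intro z t
        simp only [Pi.add_apply, mul_add, Finset.sum_add_distrib]
        congr 1
        rw [Finset.sum_eq_single κ₀]
        · simp
        · intro κ _ hκ; simp [Pi.single_eq_of_ne hκ]
        · intro h; exact (h (Finset.mem_univ _)).elim
      refine Finset.sum_nbij' (fun z => z + (Pi.single κ₀ (-(c / L κ₀)) : K → k))
        (fun z => z + (Pi.single κ₀ (c / L κ₀) : K → k)) ?_ ?_ ?_ ?_ ?_
      · intro z hz
        have : ∑ κ, L κ * z κ = c := by simpa using hz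
        simp only [Finset.mem_filter, Finset.mem_univ, true_and]
        rw [hs, this]; field_simp; ring
      · intro z hz
        have : ∑ κ, L κ * z κ = 0 := by simpa using hz
        simp only [Finset.mem_filter, Finset.mem_univ, true_and]
        rw [hs, this]; field_simp; ring
      · intro z _
        simp [add_assoc, ← Pi.single_add]
      · intro z _
        simp [add_assoc, ← Pi.single_add]
      · intro z _; rfl
    rw [Finset.sum_congr rfl (fun c _ => h c), Finset.sum_const, Finset.card_univ, nsmul_eq_mul,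
      Finset.sum_filter]

variable {I J K : Type} [Fintype I] [Fintype J] [Fintype K] [DecidableEq I] [DecidableEq J]
  [DecidableEq K]

/-- the number of solutions of a bilinear system -/
noncomputable def Sol (k : Type) [Field k] [Fintype k] (E : K → Finset (I × J)) : ℝ :=
  ∑ y : I → k, ∑ y' : J → k, ind E y y'

/-- the number of zeros of the trilinear form `∑ κ, z κ * bil (E κ) y y'` -/
noncomputable def Tri (k : Type) [Field k] [Fintype k] (E : K → Finset (I × J)) : ℝ :=
  ∑ y : I → k, ∑ y' : J → k, ∑ z : K → k,
    if ∑ κ, bil (E κ) y y' * z κ = 0 then (1 : ℝ) else 0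

lemma tri_eq (E : K → Finset (I × J)) :
    (Fintype.card k : ℝ) * Tri k E = (Fintype.card k : ℝ) ^ (Fintype.card K) *
      (((Fintype.card k : ℝ) - 1) * Sol k E +
        (Fintype.card k : ℝ) ^ (Fintype.card I + Fintype.card J)) := by
  have h1 : ∀ (y : I → k) (y' : J → k),
      (Fintype.card k : ℝ) * ∑ z : K → k,
        (if ∑ κ, bil (E κ) y y' * z κ = 0 then (1 : ℝ) else 0) =
      (Fintype.card k : ℝ) ^ (Fintype.card K) *
        (((Fintype.card k : ℝ) - 1) * ind E y y' + 1) := by
    intro y y'
    rw [card_linear]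
    congr 1
    unfold ind
    split_ifs <;> ring
  unfold Tri Sol
  simp only [Finset.mul_sum]
  rw [← Finset.sum_congr rfl (fun y _ => Finset.sum_congr rfl (fun y' _ => Finset.mul_sum _ _ _))]
  simp only [h1]
  have h2 : ∑ y : I → k, ∑ y' : J → k, (1 : ℝ) =
      (Fintype.card k : ℝ) ^ (Fintype.card I + Fintype.card J) := by
    simp [pow_add]
  rw [← h2]
  simp only [← Finset.mul_sum, Finset.sum_add_distrib]

/-- remove the monomials containing the variable `o` on the left -/
noncomputable def rmL (o : I) (E : K → Finset (I × J)) : K → Finset (I × J) :=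
  fun κ => (E κ).filter (fun p => p.1 ≠ o)

/-- remove the monomials containing the variable `o` on the right -/
noncomputable def rmR (o : J) (E : K → Finset (I × J)) : K → Finset (I × J) :=
  fun κ => (E κ).filter (fun p => p.2 ≠ o)

omit [Fintype k] [Fintype I] [Fintype J] [Fintype K] [DecidableEq J] [DecidableEq K] in
lemma bil_rmL_update (o : I) (E : K → Finset (I × J)) (y : I → k) (y' : J → k) (z : k) (κ : K) :
    bil (rmL o E κ) (Function.update y o z) y' = bil (rmL o E κ) y y' := by
  unfold bil rmL
  refine Finset.sum_congr rfl fun p hp => ?_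
  have : p.1 ≠ o := (Finset.mem_filter.mp hp).2
  rw [Function.update_of_ne this]

omit [Fintype k] [Fintype I] [Fintype J] [Fintype K] [DecidableEq J] [DecidableEq K] in
lemma bil_rmL_zero (o : I) (E : K → Finset (I × J)) (y : I → k) (y' : J → k) (hy : y o = 0)
    (κ : K) : bil (rmL o E κ) y y' = bil (E κ) y y' := by
  unfold bil rmL
  refine Finset.sum_subset (Finset.filter_subset _ _) fun p hp hp' => ?_
  have : p.1 = o := by
    by_contra h
    exact hp' (Finset.mem_filter.mpr ⟨hp, h⟩)
  rw [this, hy, zero_mul]

omit [Fintype k] [Fintype I] [Fintype J] [Fintype K] [DecidableEq I] [DecidableEq K] in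
lemma bil_rmR_update (o : J) (E : K → Finset (I × J)) (y : I → k) (y' : J → k) (z : k) (κ : K) :
    bil (rmR o E κ) y (Function.update y' o z) = bil (rmR o E κ) y y' := by
  unfold bil rmR
  refine Finset.sum_congr rfl fun p hp => ?_
  have : p.2 ≠ o := (Finset.mem_filter.mp hp).2
  rw [Function.update_of_ne this]

omit [Fintype k] [Fintype I] [Fintype J] [Fintype K] [DecidableEq I] [DecidableEq K] in
lemma bil_rmR_zero (o : J) (E : K → Finset (I × J)) (y : I → k) (y' : J → k) (hy : y' o = 0)
    (κ : K) : bil (rmR o E κ) y y' = bil (E κ) y y' := by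
  unfold bil rmR
  refine Finset.sum_subset (Finset.filter_subset _ _) fun p hp hp' => ?_
  have : p.2 = o := by
    by_contra h
    exact hp' (Finset.mem_filter.mpr ⟨hp, h⟩)
  rw [this, hy, mul_zero]

lemma sol_rmL (o : I) (E : K → Finset (I × J)) :
    Sol k (rmL o E) = (Fintype.card k : ℝ) *
      ∑ y : I → k, ∑ y' : J → k, if y o = 0 then ind E y y' else 0 := by
  unfold Sol
  rw [sum_update o (fun y => ∑ y' : J → k, ind (rmL o E) y y')]
  · congr 1
    refine Finset.sum_congr rfl fun y _ => ?_
    split_ifs with h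
    · refine Finset.sum_congr rfl fun y' _ => ?_
      exact ind_congr fun κ => bil_rmL_zero o E y y' h κ
    · simp
  · intro y z
    exact Finset.sum_congr rfl fun y' _ => ind_congr fun κ => bil_rmL_update o E y y' z κ

lemma sol_rmR (o : J) (E : K → Finset (I × J)) :
    Sol k (rmR o E) = (Fintype.card k : ℝ) *
      ∑ y : I → k, ∑ y' : J → k, if y' o = 0 then ind E y y' else 0 := by
  unfold Sol
  rw [Finset.mul_sum]
  refine Finset.sum_congr rfl fun y _ => ?_
  rw [sum_update o (fun y' => ind (rmR o E) y y')]
  · congr 1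
    refine Finset.sum_congr rfl fun y' _ => ?_
    split_ifs with h
    · exact ind_congr fun κ => bil_rmR_zero o E y y' h κ
    · rfl
  · intro y' z
    exact ind_congr fun κ => bil_rmR_update o E y y' z κ

lemma sol_rmLR (o : I) (o' : J) (E : K → Finset (I × J)) :
    Sol k (rmR o' (rmL o E)) = (Fintype.card k : ℝ) ^ 2 *
      ∑ y : I → k, ∑ y' : J → k, if y o = 0 ∧ y' o' = 0 then ind E y y' else 0 := by
  rw [sol_rmR, pow_two, mul_assoc]
  congr 1
  rw [sum_update o (fun y => ∑ y' : J → k, if y' o' = 0 then ind (rmL o E) y y' else 0)]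
  · congr 1
    refine Finset.sum_congr rfl fun y _ => ?_
    by_cases h : y o = 0
    · rw [if_pos h]
      refine Finset.sum_congr rfl fun y' _ => ?_
      have h1 : ind (rmL o E) y y' = ind E y y' :=
        ind_congr fun κ => bil_rmL_zero o E y y' h κ
      rw [h1]
      by_cases h2 : y' o' = 0 <;> simp [h, h2]
    · rw [if_neg h]
      simp [h]
  · intro y z
    refine Finset.sum_congr rfl fun y' _ => ?_
    have h1 : ind (rmL o E) (Function.update y o z) y' = ind (rmL o E) y y' :=
      ind_congr fun κ => bil_rmL_update o E y y' z κ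
    rw [h1]

/-- inclusion-exclusion -/
lemma sol_incl_excl (o : I) (o' : J) (E : K → Finset (I × J)) :
    (Fintype.card k : ℝ) ^ 2 *
      ∑ y : I → k, ∑ y' : J → k, (if y o ≠ 0 ∧ y' o' ≠ 0 then ind E y y' else 0) =
    (Fintype.card k : ℝ) ^ 2 * Sol k E - (Fintype.card k : ℝ) * Sol k (rmL o E) -
      (Fintype.card k : ℝ) * Sol k (rmR o' E) + Sol k (rmR o' (rmL o E)) := by
  rw [sol_rmL, sol_rmR, sol_rmLR]
  have h : ∑ y : I → k, ∑ y' : J → k, (if y o ≠ 0 ∧ y' o' ≠ 0 then ind E y y' else 0) =
      Sol k E - (∑ y : I → k, ∑ y' : J → k, if y o = 0 then ind E y y' else 0) -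
      (∑ y : I → k, ∑ y' : J → k, if y' o' = 0 then ind E y y' else 0) +
      ∑ y : I → k, ∑ y' : J → k, if y o = 0 ∧ y' o' = 0 then ind E y y' else 0 := by
    unfold Sol
    simp only [← Finset.sum_sub_distrib, ← Finset.sum_add_distrib]
    refine Finset.sum_congr rfl fun y _ => Finset.sum_congr rfl fun y' _ => ?_
    by_cases h1 : y o = 0 <;> by_cases h2 : y' o' = 0 <;> simp [h1, h2]
  rw [h]; ring

end Pool.Agent.Helper29.Zeta
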