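import Pool.Agent.Helper29.Zeta.Ana

/-!
# The Euler product of a family of prime powers as `exp (D c)`
-/

set_option autoImplicit false

open Complex
open ArithmeticFunction (vonMangoldt_apply vonMangoldt_nonneg vonMangoldt_le_log cardFactors)
open scoped ArithmeticFunction.vonMangoldt

namespace Pool.Agent.Helper29.Zeta

/-- the number of embeddings of a field with `a` elements into a field with `n` elements -/
noncomputable def mult (a n : ℕ) : ℕ :=
  open Classical in if ∃ k : ℕ, k ≠ 0 ∧ a ^ k = n then cardFactors a else 0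

lemma mult_pow {a k : ℕ} (hk : k ≠ 0) : mult a (a ^ k) = cardFactors a := by
  classical
  unfold mult
  rw [if_pos ⟨k, hk, rfl⟩]

lemma mult_one {a : ℕ} (ha : 2 ≤ a) : mult a 1 = 0 := by
  classical
  unfold mult
  rw [if_neg]
  rintro ⟨k, hk, h⟩
  have := Nat.one_lt_pow hk (by omega : 1 < a)
  omega

lemma mult_of_not_mem {a n : ℕ} (h : n ∉ Set.range (fun k : ℕ => a ^ k)) : mult a n = 0 := by
  classical
  unfold mult
  rw [if_neg]
  rintro ⟨k, _, h'⟩
  exact h ⟨k, h'⟩

/-- the double family -/
noncomputable def term2 (a : ℕ) (s : ℂ) (n : ℕ) : ℂ :=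
  (mult a n : ℂ) * ((Λ n / Real.log n : ℝ) : ℂ) / (n : ℂ) ^ s

lemma hasSum_term2 {a : ℕ} (ha : IsPrimePow a) {s : ℂ} (hs : 0 < s.re) :
    HasSum (term2 a s) (-Complex.log (1 - (a : ℂ) ^ (-s))) := by
  obtain ⟨p, d, hp, hd, rfl⟩ := ha
  have hp' : p.Prime := hp.nat_prime
  set a := p ^ d with hadef
  have ha2 : 2 ≤ a := by
    calc 2 ≤ p := hp'.two_le
      _ = p ^ 1 := (pow_one p).symm
      _ ≤ p ^ d := Nat.pow_le_pow_right hp'.pos hd
  have ha1 : (1 : ℝ) < a := by exact_mod_cast ha2
  have hinj : Function.Injective (fun k : ℕ => a ^ k) := Nat.pow_right_injective ha2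
  have hz : ‖(a : ℂ) ^ (-s)‖ < 1 := by
    rw [Complex.norm_natCast_cpow_of_pos (by omega), Complex.neg_re]
    exact Real.rpow_lt_one_of_one_lt_of_neg ha1 (by linarith)
  have key := Complex.hasSum_taylorSeries_neg_log hz
  rw [← hinj.hasSum_iff]
  · have e : (term2 a s ∘ fun k : ℕ => a ^ k) = fun n : ℕ => ((a : ℂ) ^ (-s)) ^ n / n := by
      funext k
      simp only [Function.comp]
      rcases Nat.eq_zero_or_pos k with rfl | hk
      · simp [term2, mult_one ha2]
      · have hk0 : (k : ℝ) ≠ 0 := Nat.cast_ne_zero.mpr hk.ne'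
        have hd0 : (d : ℝ) ≠ 0 := Nat.cast_ne_zero.mpr hd.ne'
        have hlp : Real.log p ≠ 0 := (Real.log_pos (by exact_mod_cast hp'.one_lt)).ne'
        have h1 : (cardFactors a : ℕ) = d := ArithmeticFunction.cardFactors_apply_prime_pow hp'
        have h2 : Λ (a ^ k) = Real.log p := by
          rw [ArithmeticFunction.vonMangoldt_apply_pow hk.ne', hadef,
            ArithmeticFunction.vonMangoldt_apply_pow hd.ne',
            ArithmeticFunction.vonMangoldt_apply_prime hp']
        have h3 : Real.log ((a ^ k : ℕ) : ℝ) = k * (d * Real.log p) := by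
          rw [hadef]; push_cast
          rw [Real.log_pow, Real.log_pow]
        have h4 : (d : ℂ) * ((Real.log p / (k * (d * Real.log p)) : ℝ) : ℂ) = 1 / k := by
          have : (d : ℝ) * (Real.log p / (k * (d * Real.log p))) = 1 / k := by
            field_simp
          have h5 := congrArg (fun x : ℝ => (x : ℂ)) this
          push_cast at h5 ⊢
          exact h5
        have h6 : (((a ^ k : ℕ) : ℂ) ^ s)⁻¹ = ((a : ℂ) ^ (-s)) ^ k := by
          rw [← Complex.cpow_neg]
          push_cast
          rw [← Complex.natCast_cpow_natCast_mul a k (-s), ← Complex.cpow_nat_mul]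
        unfold term2
        rw [mult_pow hk.ne', h1, h2, h3, h4, div_eq_mul_inv, h6]
        ring
    rw [e]; exact key
  · intro n hn
    simp [term2, mult_of_not_mem hn]

lemma norm_term2 (a : ℕ) (s : ℂ) (n : ℕ) :
    ‖term2 a s n‖ = (mult a n : ℝ) * (Λ n / Real.log n) / ‖(n : ℂ) ^ s‖ := by
  unfold term2
  rw [norm_div, norm_mul, Complex.norm_natCast, Complex.norm_real, Real.norm_eq_abs]
  congr 2
  apply abs_of_nonneg
  apply div_nonneg vonMangoldt_nonneg
  exact Real.log_natCast_nonneg n

/-- `N x` (`x : P`) are prime powers and `c n` counts `∑ mult (N x) n`: then the Euler product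
of the `(1 - N x ^ (-s))⁻¹` is `exp (D c s)` on a right half plane. -/
theorem euler {P : Type*} (N : P → ℕ) (hN : ∀ x, IsPrimePow (N x)) (c : ℕ → ℝ)
    (hg : Growth (fun n => (c n : ℂ)))
    (hc : ∀ n, IsPrimePow n → HasSum (fun x => (mult (N x) n : ℝ)) (c n)) :
    ∃ σ : ℝ, ∀ s : ℂ, σ < s.re →
      ∏' x, (1 - ((N x : ℂ) ^ (-s)))⁻¹ = exp (D (fun n => (c n : ℂ)) s) := by
  obtain ⟨σ, hσ⟩ := hg.summable
  refine ⟨max σ 0, fun s hs => ?_⟩
  have hs1 : σ < s.re := (max_lt_iff.mp hs).1
  have hs0 : 0 < s.re := (max_lt_iff.mp hs).2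
  have hsum := hσ s hs1
  -- for each `n` the sum over `x`
  have hfib : ∀ n : ℕ, HasSum (fun x => term2 (N x) s n)
      (LSeries.term (coef (fun n => (c n : ℂ))) s n) := by
    intro n
    by_cases hn : IsPrimePow n
    · have h1 : HasSum (fun x => ((mult (N x) n : ℝ) : ℂ)) (c n : ℂ) :=
        Complex.hasSum_ofReal.mpr (hc n hn)
      have h2 := (h1.mul_right (((Λ n / Real.log n : ℝ) : ℂ))).div_const ((n : ℂ) ^ s)
      rw [LSeries.term_of_ne_zero hn.ne_zero]
      simpa [term2, coef] using h2
    · have h1 : (fun x => term2 (N x) s n) = fun _ => 0 := by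
        funext x
        simp [term2, vonMangoldt_apply, hn]
      have h2 : LSeries.term (coef (fun n => (c n : ℂ))) s n = 0 := by
        rcases Nat.eq_zero_or_pos n with rfl | hn0
        · simp
        · rw [LSeries.term_of_ne_zero hn0.ne', coef_of_not hn, zero_div]
      rw [h1, h2]; exact hasSum_zero
  -- absolute summability of the double family
  have hdouble : Summable (fun q : ℕ × P => term2 (N q.2) s q.1) := by
    refine Summable.of_norm ?_
    rw [summable_prod_of_nonneg (fun q => norm_nonneg _)]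
    have hn : ∀ n : ℕ, HasSum (fun x => ‖term2 (N x) s n‖)
        ‖LSeries.term (coef (fun n => (c n : ℂ))) s n‖ := by
      intro n
      by_cases hn : IsPrimePow n
      · have h2 := ((hc n hn).mul_right (Λ n / Real.log n)).div_const ‖(n : ℂ) ^ s‖
        have h3 : 0 ≤ c n := (hc n hn).nonneg (fun x => Nat.cast_nonneg _)
        have h4 : 0 ≤ Λ n / Real.log n :=
          div_nonneg vonMangoldt_nonneg (Real.log_natCast_nonneg n)
        rw [LSeries.term_of_ne_zero hn.ne_zero, norm_div]
        have h5 : ‖coef (fun n => (c n : ℂ)) n‖ = c n * (Λ n / Real.log n) := by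
          unfold coef
          rw [norm_mul, Complex.norm_real, Complex.norm_real, Real.norm_eq_abs,
            Real.norm_eq_abs, abs_of_nonneg h3, abs_of_nonneg h4]
        rw [h5]
        simp only [norm_term2]
        exact h2
      · have h1 : (fun x => ‖term2 (N x) s n‖) = fun _ => 0 := by
          funext x
          simp [term2, vonMangoldt_apply, hn]
        have h2 : LSeries.term (coef (fun n => (c n : ℂ))) s n = 0 := by
          rcases Nat.eq_zero_or_pos n with rfl | hn0
          · simp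
          · rw [LSeries.term_of_ne_zero hn0.ne', coef_of_not hn, zero_div]
        rw [h1, h2, norm_zero]; exact hasSum_zero
    refine ⟨fun n => (hn n).summable, ?_⟩
    have h6 : (fun n : ℕ => ∑' x : P, ‖term2 (N x) s n‖) =
        fun n => ‖LSeries.term (coef (fun n => (c n : ℂ))) s n‖ := by
      funext n; exact (hn n).tsum_eq
    show Summable (fun n : ℕ => ∑' x : P, ‖term2 (N x) s n‖)
    rw [h6]
    exact hsum.norm
  have hT := hdouble.hasSum
  have hT1 : ∑' q : ℕ × P, term2 (N q.2) s q.1 = D (fun n => (c n : ℂ)) s :=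
    ((hT.prod_fiberwise hfib).tsum_eq).symm
  rw [hT1] at hT
  have hT2 : HasSum (fun q : P × ℕ => term2 (N q.1) s q.2) (D (fun n => (c n : ℂ)) s) :=
    (Equiv.prodComm P ℕ).hasSum_iff.mpr hT
  have hlog : HasSum (fun x => -Complex.log (1 - (N x : ℂ) ^ (-s)))
      (D (fun n => (c n : ℂ)) s) :=
    hT2.prod_fiberwise (fun x => hasSum_term2 (hN x) hs0)
  have hz : ∀ x, ‖(N x : ℂ) ^ (-s)‖ < 1 := by
    intro x
    rw [Complex.norm_natCast_cpow_of_pos (hN x).pos, Complex.neg_re]
    exact Real.rpow_lt_one_of_one_lt_of_neg (by exact_mod_cast (hN x).one_lt) (by linarith)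
  have hre : ∀ x, 0 < (1 - (N x : ℂ) ^ (-s)).re := by
    intro x
    have := Complex.re_le_norm ((N x : ℂ) ^ (-s))
    rw [Complex.sub_re, Complex.one_re]
    linarith [hz x]
  have hne : ∀ x, (1 - (N x : ℂ) ^ (-s)) ≠ 0 := by
    intro x h
    have := hre x
    rw [h] at this
    simp at this
  have hloginv : ∀ x, Complex.log ((1 - (N x : ℂ) ^ (-s))⁻¹) =
      -Complex.log (1 - (N x : ℂ) ^ (-s)) := by
    intro x
    refine Complex.log_inv _ fun h => ?_
    rw [Complex.arg_eq_pi_iff] at h
    linarith [hre x]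
  have hfin := Complex.cexp_tsum_eq_tprod (f := fun x => (1 - (N x : ℂ) ^ (-s))⁻¹)
    (fun x => inv_ne_zero (hne x)) (by simp only [hloginv]; exact hlog.summable)
  rw [← hfin]
  simp only [hloginv]
  rw [hlog.tsum_eq]

end Pool.Agent.Helper29.Zeta
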