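import Pool.Agent.Helper29.Zeta.Euler

/-!
# Homomorphisms into finite fields
-/

set_option autoImplicit false

open ArithmeticFunction (cardFactors)

namespace Pool.Agent.Helper29.Zeta

instance jacobson_int : IsJacobsonRing ℤ := by
  rw [isJacobsonRing_iff_prime_eq]
  intro P hP
  by_cases h : P = ⊥
  · subst h
    refine le_antisymm (fun x hx => ?_) Ideal.le_jacobson
    rw [Ideal.mem_jacobson_bot] at hx
    have h1 := hx x
    rw [Ideal.mem_bot]
    by_contra h0
    have h2 : 0 < x * x := mul_self_pos.mpr h0
    rcases Int.isUnit_iff.mp h1 with h3 | h3 <;> linarith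
  · have := hP.isMaximal h
    exact Ideal.jacobson_eq_self_of_isMaximal

lemma finite_of_fg (K : Type*) [Field K] [i : Algebra ℤ K] [Algebra.FiniteType ℤ K] :
    Finite K := by
  have e : i = Ring.toIntAlgebra K := Subsingleton.elim _ _
  subst e
  have h1 : Module.Finite ℤ K := finite_of_finite_type_of_isJacobsonRing ℤ K
  -- the characteristic is positive
  obtain ⟨p, hp⟩ := CharP.exists K
  rcases Nat.eq_zero_or_pos p with rfl | hpos
  · exfalso
    have : CharZero K := CharP.charP_to_charZero K
    have hint : Algebra.IsIntegral ℤ K := Algebra.IsIntegral.of_finite ℤ K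
    have hinj : Function.Injective (algebraMap ℤ K) := (algebraMap ℤ K).injective_int
    exact Int.not_isField (isField_of_isIntegral_of_isField hinj (Field.toIsField K))
  · have : NeZero p := ⟨hpos.ne'⟩
    let _ : Algebra (ZMod p) K := ZMod.algebra K p
    have h2 : Module.Finite (ZMod p) K := by
      have : IsScalarTower ℤ (ZMod p) K := IsScalarTower.of_algebraMap_eq' (RingHom.ext_int _ _)
      exact Module.Finite.of_restrictScalars_finite ℤ (ZMod p) K
    exact Module.finite_of_finite (ZMod p)

lemma card_ringHom (K k : Type*) [Field K] [Field k] [Finite K] [Finite k] :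
    Nat.card (K →+* k) = mult (Nat.card K) (Nat.card k) := by
  classical
  by_cases h : ∃ j : ℕ, j ≠ 0 ∧ Nat.card K ^ j = Nat.card k
  · have hm : mult (Nat.card K) (Nat.card k) = cardFactors (Nat.card K) := by
      unfold mult; rw [if_pos h]
    obtain ⟨j, hj, hjk⟩ := h
    have := Fintype.ofFinite K
    have := Fintype.ofFinite k
    obtain ⟨p, hp⟩ := CharP.exists K
    obtain ⟨p', hp'⟩ := CharP.exists k
    obtain ⟨n, hprime, hn⟩ := FiniteField.card K p
    obtain ⟨n', hprime', hn'⟩ := FiniteField.card k p'
    have hcK : Nat.card K = p ^ (n : ℕ) := by rw [Nat.card_eq_fintype_card, hn]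
    have hck : Nat.card k = p' ^ (n' : ℕ) := by rw [Nat.card_eq_fintype_card, hn']
    have hpp : p = p' := by
      rw [hcK, hck, ← pow_mul] at hjk
      have h1 : p ∣ p' ^ (n' : ℕ) := by
        rw [← hjk]; exact dvd_pow_self p (mul_ne_zero n.pos.ne' hj)
      exact (Nat.prime_dvd_prime_iff_eq hprime hprime').mp (hprime.dvd_of_dvd_pow h1)
    subst hpp
    have : Fact p.Prime := ⟨hprime⟩
    let _ : Algebra (ZMod p) K := ZMod.algebra K p
    let _ : Algebra (ZMod p) k := ZMod.algebra k p
    have hfK : Nat.card K = p ^ Module.finrank (ZMod p) K :=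
      (FiniteField.pow_finrank_eq_natCard p K).symm
    have hfk : Nat.card k = p ^ Module.finrank (ZMod p) k :=
      (FiniteField.pow_finrank_eq_natCard p k).symm
    have hdvd : Module.finrank (ZMod p) K ∣ Module.finrank (ZMod p) k := by
      refine ⟨j, ?_⟩
      rw [hfK, hfk, ← pow_mul] at hjk
      exact (Nat.pow_right_injective hprime.two_le hjk).symm
    have hcard := FiniteField.natCard_algHom_of_finrank_dvd hdvd
    have hcomm : ∀ (f : K →+* k) (r : ZMod p),
        f (algebraMap (ZMod p) K r) = algebraMap (ZMod p) k r := by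
      intro f r
      exact RingHom.congr_fun (Subsingleton.elim (f.comp (algebraMap (ZMod p) K))
        (algebraMap (ZMod p) k)) r
    have hequiv : (K →+* k) ≃ (K →ₐ[ZMod p] k) :=
      { toFun := fun f => AlgHom.mk f (hcomm f)
        invFun := fun f => f.toRingHom
        left_inv := fun f => rfl
        right_inv := fun f => rfl }
    rw [Nat.card_congr hequiv, hcard, hm, hfK, ArithmeticFunction.cardFactors_apply_prime_pow hprime]
  · have hm : mult (Nat.card K) (Nat.card k) = 0 := by
      unfold mult; rw [if_neg h]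
    rw [hm]
    have : IsEmpty (K →+* k) := by
      refine ⟨fun f => h ?_⟩
      let _ := f.toAlgebra
      have : Module.Finite K k := Module.Finite.of_finite
      refine ⟨Module.finrank K k, Module.finrank_pos.ne', ?_⟩
      exact (Module.natCard_eq_pow_finrank (K := K)).symm
    exact Nat.card_of_isEmpty

/-- fibering a finite type -/
lemma hasSum_fiber {T P : Type*} [Finite T] (π : T → P) :
    HasSum (fun x : P => (Nat.card {t : T // π t = x} : ℝ)) (Nat.card T : ℝ) := by
  classical
  have := Fintype.ofFinite T
  have h1 : HasSum (fun _ : T => (1 : ℝ)) (Nat.card T : ℝ) := by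
    have := hasSum_fintype (fun _ : T => (1 : ℝ))
    simpa [Nat.card_eq_fintype_card] using this
  have h2 : HasSum (fun _ : (Σ x : P, {t : T // π t = x}) => (1 : ℝ)) (Nat.card T : ℝ) :=
    (Equiv.sigmaFiberEquiv π).hasSum_iff.mpr h1
  refine h2.sigma fun x => ?_
  have := hasSum_fintype (fun _ : {t : T // π t = x} => (1 : ℝ))
  simpa [Nat.card_eq_fintype_card] using this

/-- homomorphisms with a given maximal kernel -/
lemma card_ker_eq {A : Type*} [CommRing A] [Algebra.FiniteType ℤ A] (m : Ideal A) [m.IsMaximal]
    (k : Type*) [Field k] [Finite k] :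
    Nat.card {φ : A →+* k // RingHom.ker φ = m} = mult (Nat.card (A ⧸ m)) (Nat.card k) := by
  let _ : Field (A ⧸ m) := Ideal.Quotient.field m
  have : Algebra.FiniteType ℤ (A ⧸ m) :=
    Algebra.FiniteType.of_surjective (Ideal.Quotient.mkₐ ℤ m) (Ideal.Quotient.mkₐ_surjective ℤ m)
  have : Finite (A ⧸ m) := finite_of_fg _
  rw [← card_ringHom]
  refine Nat.card_congr
    { toFun := fun φ => Ideal.Quotient.lift m φ.1 (fun a ha => by
        have : a ∈ RingHom.ker φ.1 := by rw [φ.2]; exact ha
        exact this)
      invFun := fun ψ => ⟨ψ.comp (Ideal.Quotient.mk m), ?_⟩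
      left_inv := fun φ => ?_
      right_inv := fun ψ => ?_ }
  · ext a
    rw [RingHom.mem_ker, RingHom.comp_apply, map_eq_zero, Ideal.Quotient.eq_zero_iff_mem]
  · ext a; rfl
  · ext a; rfl

/-- kernels of homomorphisms to finite fields are maximal -/
lemma ker_isMaximal {A k : Type*} [CommRing A] [Field k] [Finite k] (φ : A →+* k) :
    (RingHom.ker φ).IsMaximal := by
  have h1 : IsField (A ⧸ RingHom.ker φ) := by
    have hinj : Function.Injective (RingHom.kerLift φ) := RingHom.kerLift_injective φ
    have : Finite (A ⧸ RingHom.ker φ) := Finite.of_injective _ hinj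
    have : (RingHom.ker φ).IsPrime := RingHom.ker_isPrime φ
    exact Finite.isField_of_domain _
  exact Ideal.Quotient.maximal_of_isField _ h1

lemma finite_ringHom (A k : Type*) [CommRing A] [Algebra.FiniteType ℤ A] [Finite k] [CommRing k] :
    Finite (A →+* k) := by
  obtain ⟨s, hs⟩ := (Algebra.FiniteType.out : (⊤ : Subalgebra ℤ A).FG)
  refine Finite.of_injective (fun φ : A →+* k => fun x : s => φ x) fun φ ψ h => ?_
  have h2 : φ.toIntAlgHom = ψ.toIntAlgHom := by
    refine AlgHom.ext_of_adjoin_eq_top hs fun x hx => ?_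
    exact congrFun h ⟨x, hx⟩
  ext a
  exact congrArg (fun f : A →ₐ[ℤ] k => f a) h2

end Pool.Agent.Helper29.Zeta
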