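import Pool.Agent.Helper29.Zeta.Main

/-!
# The reduction theorem
-/

set_option autoImplicit false

open Finset AlgebraicGeometry CategoryTheory
open scoped Classical

namespace Pool.Agent.Helper29.Zeta

lemma growth_of_le {c : ℕ → ℝ} (a : ℕ) (h0 : ∀ n, 0 ≤ c n)
    (h : ∀ n, IsPrimePow n → c n ≤ (n : ℝ) ^ a) : Growth (fun n => (c n : ℂ)) := by
  refine ⟨1, a, fun n hn => ?_⟩
  rw [Complex.norm_real, Real.norm_eq_abs, abs_of_nonneg (h0 n), one_mul]
  exact h n hn

lemma growth_pow (a : ℕ) : Growth (fun n => (n : ℂ) ^ a) := Growth.id.pow a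

lemma growth_Sol {I K : Type} [Fintype I] [DecidableEq I] (E : K → Finset (I × I)) :
    Growth (fun n => (Sol (FF n) E : ℂ)) := by
  have hind : ∀ (n : ℕ) (y y' : I → FF n), 0 ≤ ind E y y' ∧ ind E y y' ≤ 1 := by
    intro n y y'
    unfold ind
    split_ifs <;> norm_num
  refine growth_of_le (Fintype.card I + Fintype.card I) (fun n => ?_) (fun n hn => ?_)
  · exact Finset.sum_nonneg fun y _ => Finset.sum_nonneg fun y' _ => (hind n y y').1
  · calc Sol (FF n) E ≤ ∑ y : I → FF n, ∑ y' : I → FF n, (1 : ℝ) :=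
          Finset.sum_le_sum fun y _ => Finset.sum_le_sum fun y' _ => (hind n y y').2
      _ = (n : ℝ) ^ (Fintype.card I + Fintype.card I) := by
          simp [pow_add, fcard_FF hn]

lemma growth_Tri {I K : Type} [Fintype I] [Fintype K] [DecidableEq I] [DecidableEq K] (E : K → Finset (I × I)) :
    Growth (fun n => (Tri (FF n) E : ℂ)) := by
  have hind : ∀ (n : ℕ) (y y' : I → FF n) (z : K → FF n),
      0 ≤ (if ∑ κ, bil (E κ) y y' * z κ = 0 then (1 : ℝ) else 0) ∧
      (if ∑ κ, bil (E κ) y y' * z κ = 0 then (1 : ℝ) else 0) ≤ 1 := by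
    intro n y y' z
    split_ifs <;> norm_num
  refine growth_of_le (Fintype.card I + Fintype.card I + Fintype.card K) (fun n => ?_)
    (fun n hn => ?_)
  · exact Finset.sum_nonneg fun y _ => Finset.sum_nonneg fun y' _ =>
      Finset.sum_nonneg fun z _ => (hind n y y' z).1
  · calc Tri (FF n) E ≤ ∑ y : I → FF n, ∑ y' : I → FF n, ∑ z : K → FF n, (1 : ℝ) :=
          Finset.sum_le_sum fun y _ => Finset.sum_le_sum fun y' _ =>
            Finset.sum_le_sum fun z _ => (hind n y y' z).2
      _ = (n : ℝ) ^ (Fintype.card I + Fintype.card I + Fintype.card K) := by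
          simp [pow_add, fcard_FF hn]; ring

lemma growth_zcount {r d : ℕ} {Φ : Type} [Fintype Φ] (c : Φ → Mon r d → ℤ) :
    Growth (fun n => (zcount (FF n) c : ℂ)) := by
  refine growth_of_le r (fun n => Nat.cast_nonneg _) (fun n hn => ?_)
  unfold zcount
  have h1 := Finset.card_le_univ (univ.filter fun x : Fin r → FF n => ∀ f, pval c f x = 0)
  have h2 : Fintype.card (Fin r → FF n) = n ^ r := by simp [fcard_FF hn]
  rw [h2] at h1
  exact_mod_cast h1

section

variable (hyp : ∀ (N : ℕ) (T : Finset (Fin N × Fin N × Fin N)),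
  ZetaMero (Spec (CommRingCat.of (TriRing N T))))

include hyp

omit hyp in
lemma fg_tri (N : ℕ) (T : Finset (Fin N × Fin N × Fin N)) :
    @Algebra.FiniteType ℤ (TriRing N T) _ _ (Ring.toIntAlgebra (TriRing N T)) := by
  have h1 : Algebra.FiniteType ℤ (TriRing N T) :=
    Algebra.FiniteType.of_surjective (Ideal.Quotient.mkₐ ℤ _) (Ideal.Quotient.mkₐ_surjective ℤ _)
  have e := Subsingleton.elim (Ideal.Quotient.algebra ℤ : Algebra ℤ (TriRing N T))
    (Ring.toIntAlgebra (TriRing N T))
  exact e ▸ h1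

lemma mero_triCount (N : ℕ) (T : Finset (Fin N × Fin N × Fin N)) :
    Mero (fun n => (TriCount (FF n) N T : ℂ)) := by
  have := fg_tri N T
  refine (mero_of_spec (TriRing N T) (hyp N T)).congr fun n _ => ?_
  rw [cnt_tri]

lemma mero_Tri {I K : Type} [Fintype I] [Fintype K] [DecidableEq I] [DecidableEq K] (E : K → Finset (I × I)) :
    Mero (fun n => (Tri (FF n) E : ℂ)) := by
  obtain ⟨N, T, a, h⟩ := tri_pad E
  refine Mero.of_shift_pow a ((mero_triCount hyp N T).congr fun n hn => ?_)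
  rw [h (FF n), fcard_FF hn]
  push_cast; rfl

lemma mero_one : Mero (fun _ => 1) := by
  refine (mero_triCount hyp 0 ∅).congr fun n _ => ?_
  unfold TriCount
  simp

lemma mero_pow (a : ℕ) : Mero (fun n => (n : ℂ) ^ a) := by
  simpa using (mero_one hyp).shift_pow a

lemma mero_Sol {I K : Type} [Fintype I] [Fintype K] [DecidableEq I] [DecidableEq K] (E : K → Finset (I × I)) :
    Mero (fun n => (Sol (FF n) E : ℂ)) := by
  refine Mero.of_mul_sub_one (growth_Sol E) (Mero.of_shift_pow (Fintype.card K) ?_)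
  have h1 : Mero (fun n => (n : ℂ) * (Tri (FF n) E : ℂ) -
      (n : ℂ) ^ (Fintype.card K + (Fintype.card I + Fintype.card I))) :=
    Mero.sub (Growth.id.mul (growth_Tri E)) (growth_pow _) (mero_Tri hyp E).shift (mero_pow hyp _)
  refine h1.congr fun n hn => ?_
  have h2 := tri_eq (k := FF n) E
  rw [fcard_FF hn] at h2
  have h3 := congrArg Complex.ofReal h2
  push_cast at h3
  rw [h3]; ring

lemma mero_zcount {r d C : ℕ} {Φ : Type} [Fintype Φ] (c : Φ → Mon r d → ℤ)
    (hC : ∀ f m, (c f m).natAbs ≤ C) : Mero (fun n => (zcount (FF n) c : ℂ)) := by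
  set E : Kx r d C Φ → Finset (Ix r d C × Ix r d C) := Ex c with hE
  refine Mero.of_mul_sub_one (growth_zcount c) (Mero.of_mul_sub_one ?_
    (Mero.of_shift_pow 2 ?_))
  · exact (Growth.id.sub (Growth.const 1)).mul (growth_zcount c)
  have hg1 := growth_Sol E
  have hg2 := growth_Sol (rmL ox E)
  have hg3 := growth_Sol (rmR ox E)
  have hg4 := growth_Sol (rmR ox (rmL ox E))
  have h1 : Mero (fun n => (n : ℂ) ^ 2 * (Sol (FF n) E : ℂ) - (n : ℂ) * (Sol (FF n) (rmL ox E) : ℂ) -
      (n : ℂ) * (Sol (FF n) (rmR ox E) : ℂ) + (Sol (FF n) (rmR ox (rmL ox E)) : ℂ)) := by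
    refine Mero.add ?_ hg4 ?_ (mero_Sol hyp _)
    · exact (((growth_pow 2).mul hg1).sub (Growth.id.mul hg2)).sub (Growth.id.mul hg3)
    refine Mero.sub ?_ (Growth.id.mul hg3) ?_ (mero_Sol hyp _).shift
    · exact ((growth_pow 2).mul hg1).sub (Growth.id.mul hg2)
    exact Mero.sub ((growth_pow 2).mul hg1) (Growth.id.mul hg2) ((mero_Sol hyp _).shift_pow 2)
      (mero_Sol hyp _).shift
  refine h1.congr fun n hn => ?_
  have h2 := sol_incl_excl (k := FF n) (ox : Ix r d C) (ox : Ix r d C) E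
  rw [hE, count_univ c hC, ← hE, fcard_FF hn] at h2
  have h3 := congrArg Complex.ofReal h2
  push_cast at h3
  rw [← h3]; ring

theorem mero_cnt (A : Type) [CommRing A] [Algebra.FiniteType ℤ A] (I : Ideal A) :
    Mero (fun n => (cnt A I n : ℂ)) := by
  obtain ⟨r, d, C, Φ, _, c, hC, h⟩ := exists_presentation A I
  refine (mero_zcount hyp c hC).congr fun n _ => ?_
  rw [h n]

/-- **Main theorem**, the non-trivial direction. -/
theorem all_of_trilinear (X : Scheme.{0}) (f : X ⟶ Spec (CommRingCat.of ℤ))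
    (hf : LocallyOfFiniteType f) (hq : QuasiCompact f) : ZetaMero X :=
  geom_main (fun A _ I => mero_cnt hyp A I) X f

end

/-- the trivial direction -/
theorem trilinear_of_all
    (h : ∀ (X : Scheme.{0}) (f : X ⟶ Spec (CommRingCat.of ℤ)),
      LocallyOfFiniteType f → QuasiCompact f → ZetaMero X)
    (N : ℕ) (T : Finset (Fin N × Fin N × Fin N)) :
    ZetaMero (Spec (CommRingCat.of (TriRing N T))) := by
  have h1 : Algebra.FiniteType ℤ (TriRing N T) :=
    Algebra.FiniteType.of_surjective (Ideal.Quotient.mkₐ ℤ _) (Ideal.Quotient.mkₐ_surjective ℤ _)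
  refine h _ (Spec.map (CommRingCat.ofHom (algebraMap ℤ (TriRing N T)))) ?_ inferInstance
  rw [HasRingHomProperty.Spec_iff (P := @LocallyOfFiniteType)]
  exact RingHom.finiteType_algebraMap.mpr h1

end Pool.Agent.Helper29.Zeta
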