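import Pool.Agent.Helper29.Zeta.Field

/-!
# Closed points of schemes of finite type over `ℤ` and homomorphisms into finite fields
-/

set_option autoImplicit false

open AlgebraicGeometry CategoryTheory

namespace Pool.Agent.Helper29.Zeta

/-- a finite field -/
structure FinField where
  K : Type
  [fld : Field K]
  [fin : Finite K]

lemma exists_ff (n : ℕ) : ∃ F : FinField, IsPrimePow n → Nat.card F.K = n := by
  by_cases h : IsPrimePow n
  · obtain ⟨p, d, hp, hd, rfl⟩ := h
    have : Fact p.Prime := ⟨hp.nat_prime⟩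
    have : Finite (GaloisField p d) := Module.finite_of_finite (ZMod p)
    exact ⟨⟨GaloisField p d⟩, fun _ => GaloisField.card p d hd.ne'⟩
  · exact ⟨⟨ZMod 2⟩, fun h' => (h h').elim⟩

/-- a field with `n` elements if `n` is a prime power -/
noncomputable def FF (n : ℕ) : Type := (exists_ff n).choose.K

noncomputable instance (n : ℕ) : Field (FF n) := (exists_ff n).choose.fld

instance (n : ℕ) : Finite (FF n) := (exists_ff n).choose.fin

lemma card_FF {n : ℕ} (hn : IsPrimePow n) : Nat.card (FF n) = n := (exists_ff n).choose_spec hn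

/-- the number of homomorphisms to the field with `n` elements which kill `I` -/
noncomputable def cnt (A : Type*) [CommRing A] (I : Ideal A) (n : ℕ) : ℝ :=
  (Nat.card {φ : A →+* FF n // I ≤ RingHom.ker φ} : ℝ)

lemma hasSum_affine {A : Type*} [CommRing A] [Algebra.FiniteType ℤ A] (I : Ideal A) {n : ℕ}
    (hn : IsPrimePow n) :
    HasSum (fun y : {y : PrimeSpectrum A // y.asIdeal.IsMaximal ∧ I ≤ y.asIdeal} =>
      (mult (Nat.card (A ⧸ y.1.asIdeal)) n : ℝ)) (cnt A I n) := by
  have : Finite (A →+* FF n) := finite_ringHom A (FF n)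
  let T := {φ : A →+* FF n // I ≤ RingHom.ker φ}
  let π : T → {y : PrimeSpectrum A // y.asIdeal.IsMaximal ∧ I ≤ y.asIdeal} := fun φ =>
    ⟨⟨RingHom.ker φ.1, RingHom.ker_isPrime φ.1⟩, ker_isMaximal φ.1, φ.2⟩
  have key := hasSum_fiber π
  unfold cnt
  have hfun : (fun y : {y : PrimeSpectrum A // y.asIdeal.IsMaximal ∧ I ≤ y.asIdeal} =>
      (mult (Nat.card (A ⧸ y.1.asIdeal)) n : ℝ)) =
      fun y => (Nat.card {t : T // π t = y} : ℝ) := by
    funext y
    have hmax : y.1.asIdeal.IsMaximal := y.2.1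
    have h1 := card_ker_eq y.1.asIdeal (FF n)
    rw [card_FF hn] at h1
    rw [← h1]
    congr 1
    refine Nat.card_congr
      { toFun := fun φ => ⟨⟨φ.1, ?_⟩, ?_⟩
        invFun := fun φ => ⟨φ.1.1, ?_⟩
        left_inv := fun φ => rfl
        right_inv := fun φ => rfl }
    · rw [φ.2]; exact y.2.2
    · apply Subtype.ext
      apply PrimeSpectrum.ext
      exact φ.2
    · exact congrArg (fun z => z.1.asIdeal) φ.2
  rw [hfun]; exact key

/-- residue fields under an open immersion from an affine scheme -/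
lemma card_residueField {X : Scheme.{0}} {A : CommRingCat.{0}} (j : Spec A ⟶ X)
    [IsOpenImmersion j] (y : Spec A) (hy : y.asIdeal.IsMaximal) :
    Nat.card (X.residueField (j y)) = Nat.card (A ⧸ y.asIdeal) := by
  have e1 : X.residueField (j y) ≅ (Spec A).residueField y := asIso (j.residueFieldMap y)
  have e2 : (Spec A).residueField y ≅ .of y.asIdeal.ResidueField :=
    Scheme.Spec.residueFieldIso A y
  rw [Nat.card_congr (e1 ≪≫ e2).commRingCatIsoToRingEquiv.toEquiv]
  have hb := Ideal.bijective_algebraMap_quotient_residueField y.asIdeal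
  exact (Nat.card_congr (Equiv.ofBijective _ hb)).symm

/-- the closed points of `X` in `range j ∩ Z` -/
def clPts {X : Scheme.{0}} (S : Set X) : Set X := {x | x ∈ S ∧ IsClosed ({x} : Set X)}

/-- the closed points in `S` have the counting function `c` -/
def HasCount {X : Scheme.{0}} (S : Set X) (c : ℕ → ℝ) : Prop :=
  ∀ n, IsPrimePow n →
    HasSum ((fun x : X => (mult (Nat.card (X.residueField x)) n : ℝ)) ∘
      ((↑) : clPts S → X)) (c n)

lemma hasCount_stratum {X : Scheme.{0}} [JacobsonSpace X] {A : CommRingCat.{0}}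
    [Algebra.FiniteType ℤ A] (j : Spec A ⟶ X) [IsOpenImmersion j] (Z : Set X)
    (hZ : IsClosed (j ⁻¹' Z)) :
    HasCount (Set.range j ∩ Z) (cnt A (PrimeSpectrum.vanishingIdeal (j ⁻¹' Z))) := by
  intro n hn
  have key := hasSum_affine (A := A) (PrimeSpectrum.vanishingIdeal (j ⁻¹' Z)) hn
  have hcl : ∀ y : PrimeSpectrum A, IsClosed ({j y} : Set X) ↔ y.asIdeal.IsMaximal := by
    intro y
    rw [← PrimeSpectrum.isClosed_singleton_iff_isMaximal]
    have h1 := j.isOpenEmbedding.preimage_closedPoints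
    have h2 : j y ∈ closedPoints X ↔ y ∈ closedPoints (Spec A) := by
      rw [← h1]; rfl
    exact h2
  have hI : ∀ y : PrimeSpectrum A,
      j y ∈ Z ↔ PrimeSpectrum.vanishingIdeal (j ⁻¹' Z) ≤ y.asIdeal := by
    intro y
    have h1 : PrimeSpectrum.zeroLocus
        (PrimeSpectrum.vanishingIdeal (j ⁻¹' Z) : Set A) = (j ⁻¹' Z : Set (PrimeSpectrum A)) := by
      rw [PrimeSpectrum.zeroLocus_vanishingIdeal_eq_closure]
      exact hZ.closure_eq
    have h3 := PrimeSpectrum.mem_zeroLocus y (PrimeSpectrum.vanishingIdeal (j ⁻¹' Z) : Set A)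
    rw [h1] at h3
    exact h3
  let e : {y : PrimeSpectrum A // y.asIdeal.IsMaximal ∧
      PrimeSpectrum.vanishingIdeal (j ⁻¹' Z) ≤ y.asIdeal} ≃ clPts (Set.range j ∩ Z) :=
    Equiv.ofBijective (fun y => ⟨j y.1, ⟨⟨y.1, rfl⟩, (hI y.1).mpr y.2.2⟩, (hcl y.1).mpr y.2.1⟩) (by
      constructor
      · intro y y' h
        apply Subtype.ext
        exact j.isOpenEmbedding.injective (congrArg Subtype.val h)
      · rintro ⟨x, ⟨⟨y, rfl⟩, hy⟩, hx⟩
        exact ⟨⟨y, (hcl y).mp hx, (hI y).mp hy⟩, rfl⟩)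
  rw [← e.hasSum_iff]
  have hfun : (fun y : {y : PrimeSpectrum A // y.asIdeal.IsMaximal ∧
      PrimeSpectrum.vanishingIdeal (j ⁻¹' Z) ≤ y.asIdeal} =>
      (mult (Nat.card (A ⧸ y.1.asIdeal)) n : ℝ)) =
      ((fun x : X => (mult (Nat.card (X.residueField x)) n : ℝ)) ∘
      ((↑) : clPts (Set.range j ∩ Z) → X)) ∘ e := by
    funext y
    show _ = (mult (Nat.card (X.residueField (j y.1))) n : ℝ)
    rw [card_residueField j y.1 y.2.1]
  rw [← hfun]; exact key

lemma HasCount.union {X : Scheme.{0}} {S S' : Set X} {c c' : ℕ → ℝ} (h : HasCount S c)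
    (h' : HasCount S' c') (hd : Disjoint S S') : HasCount (S ∪ S') (fun n => c n + c' n) := by
  intro n hn
  have e : clPts (S ∪ S') = clPts S ∪ clPts S' := by
    ext x; simp only [clPts, Set.mem_union, Set.mem_ofPred_eq]; tauto
  unfold HasCount at h h'
  rw [e]
  refine (h n hn).add_disjoint ?_ (h' n hn)
  rw [Set.disjoint_left] at hd ⊢
  intro x hx hx'
  exact hd hx.1 hx'.1

lemma HasCount.empty {X : Scheme.{0}} : HasCount (∅ : Set X) (fun _ => 0) := by
  intro n _
  have e : clPts (∅ : Set X) = ∅ := by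
    ext x; simp [clPts]
  rw [e]
  exact hasSum_empty

/-- the Euler product over closed points -/
noncomputable def zetaProd (X : Scheme.{0}) (s : ℂ) : ℂ :=
  ∏' x : {x : X // IsClosed ({x} : Set X)}, (1 - ((Nat.card (X.residueField x.1) : ℂ) ^ (-s)))⁻¹

/-- the zeta function of `X` continues to a function meromorphic on `ℂ` -/
def ZetaMero (X : Scheme.{0}) : Prop :=
  ∃ F : ℂ → ℂ, MeromorphicOn F Set.univ ∧ ∃ σ : ℝ, ∀ s : ℂ, σ < s.re → F s = zetaProd X s

lemma finiteType_of_imm {X : Scheme.{0}} (f : X ⟶ Spec (CommRingCat.of ℤ))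
    [LocallyOfFiniteType f] {A : CommRingCat.{0}} (j : Spec A ⟶ X) [IsOpenImmersion j] :
    Algebra.FiniteType ℤ A := by
  have h1 : LocallyOfFiniteType (j ≫ f) := inferInstance
  obtain ⟨φ, hφ⟩ := Spec.map_surjective (j ≫ f)
  rw [← hφ] at h1
  have h2 : φ.hom.FiniteType := (HasRingHomProperty.Spec_iff (P := @LocallyOfFiniteType)).mp h1
  have h3 : φ.hom = algebraMap ℤ A := RingHom.ext_int _ _
  rw [h3, RingHom.finiteType_algebraMap] at h2
  exact h2

lemma isPrimePow_card {X : Scheme.{0}} (f : X ⟶ Spec (CommRingCat.of ℤ))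
    [LocallyOfFiniteType f] [JacobsonSpace X] (x : X) (hx : IsClosed ({x} : Set X)) :
    IsPrimePow (Nat.card (X.residueField x)) := by
  obtain ⟨A, j, hj, ⟨y, rfl⟩, _⟩ :=
    Scheme.exists_affine_mem_range_and_range_subset (TopologicalSpace.Opens.mem_top x)
  have hfg := finiteType_of_imm f j
  have h1 := j.isOpenEmbedding.preimage_closedPoints
  have h2 : j y ∈ closedPoints X ↔ y ∈ closedPoints (Spec A) := by
    rw [← h1]; rfl
  have hmax : (y : PrimeSpectrum A).asIdeal.IsMaximal :=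
    (PrimeSpectrum.isClosed_singleton_iff_isMaximal _).mp (h2.mp hx)
  rw [card_residueField j y hmax]
  let _ : Field (A ⧸ (y : PrimeSpectrum A).asIdeal) := Ideal.Quotient.field _
  have : Algebra.FiniteType ℤ (A ⧸ (y : PrimeSpectrum A).asIdeal) :=
    Algebra.FiniteType.of_surjective (Ideal.Quotient.mkₐ ℤ _) (Ideal.Quotient.mkₐ_surjective ℤ _)
  have : Finite (A ⧸ (y : PrimeSpectrum A).asIdeal) := finite_of_fg _
  have := Fintype.ofFinite (A ⧸ (y : PrimeSpectrum A).asIdeal)
  rw [Nat.card_eq_fintype_card]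
  exact FiniteField.isPrimePow_card _

theorem euler_scheme {X : Scheme.{0}} (f : X ⟶ Spec (CommRingCat.of ℤ))
    [LocallyOfFiniteType f] [JacobsonSpace X] {c : ℕ → ℝ} (hg : Growth (fun n => (c n : ℂ)))
    (hc : HasCount (Set.univ : Set X) c) :
    ∃ σ : ℝ, ∀ s : ℂ, σ < s.re → zetaProd X s = Complex.exp (D (fun n => (c n : ℂ)) s) := by
  let e : {x : X // IsClosed ({x} : Set X)} ≃ clPts (Set.univ : Set X) :=
    { toFun := fun x => ⟨x.1, trivial, x.2⟩
      invFun := fun x => ⟨x.1, x.2.2⟩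
      left_inv := fun x => rfl
      right_inv := fun x => rfl }
  refine euler (fun x : {x : X // IsClosed ({x} : Set X)} => Nat.card (X.residueField x.1))
    (fun x => isPrimePow_card f x.1 x.2) c hg (fun n hn => ?_)
  exact e.hasSum_iff.mpr (hc n hn)

lemma growth_cnt (A : Type*) [CommRing A] [Algebra.FiniteType ℤ A] (I : Ideal A) :
    Growth (fun n => (cnt A I n : ℂ)) := by
  obtain ⟨s, hs⟩ := (Algebra.FiniteType.out : (⊤ : Subalgebra ℤ A).FG)
  refine ⟨1, s.card, fun n hn => ?_⟩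
  have : Finite (A →+* FF n) := finite_ringHom A (FF n)
  unfold cnt
  rw [Complex.norm_real, Real.norm_natCast, one_mul]
  have h1 : Nat.card {φ : A →+* FF n // I ≤ RingHom.ker φ} ≤ Nat.card (s → FF n) := by
    refine Nat.card_le_card_of_injective (fun φ => fun x : s => φ.1 x) fun φ ψ h => ?_
    have h2 : φ.1.toIntAlgHom = ψ.1.toIntAlgHom := by
      refine AlgHom.ext_of_adjoin_eq_top hs fun x hx => ?_
      exact congrFun h ⟨x, hx⟩
    apply Subtype.ext
    ext a
    exact congrArg (fun f : A →ₐ[ℤ] FF n => f a) h2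
  have h2 : Nat.card (s → FF n) = n ^ s.card := by
    rw [Nat.card_fun, card_FF hn]
    simp
  rw [h2] at h1
  exact_mod_cast h1

/-- from affine schemes to all schemes of finite type over `ℤ` -/
theorem geom_main
    (hAff : ∀ (A : CommRingCat.{0}) [Algebra.FiniteType ℤ A] (I : Ideal A),
      Mero (fun n => (cnt A I n : ℂ)))
    (X : Scheme.{0}) (f : X ⟶ Spec (CommRingCat.of ℤ)) [LocallyOfFiniteType f]
    [QuasiCompact f] : ZetaMero X := by
  have hJ : JacobsonSpace X := LocallyOfFiniteType.jacobsonSpace f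
  have hcomp : CompactSpace X := QuasiCompact.compactSpace_of_compactSpace f
  have key : ∃ c : ℕ → ℝ, Growth (fun n => (c n : ℂ)) ∧ Mero (fun n => (c n : ℂ)) ∧
      HasCount ((⊤ : X.Opens) : Set X) c := by
    refine compact_open_induction_on
      (P := fun S : X.Opens => ∃ c : ℕ → ℝ, Growth (fun n => (c n : ℂ)) ∧
        Mero (fun n => (c n : ℂ)) ∧ HasCount (S : Set X) c) ⊤ isCompact_univ ?_ ?_
    · refine ⟨fun _ => 0, by simpa using Growth.const 0, ?_, HasCount.empty⟩
      refine ⟨fun _ => 1, fun z _ => MeromorphicAt.const 1 z, 0, fun s _ => ?_⟩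
      have : coef (fun _ => ((0 : ℝ) : ℂ)) = 0 := by
        funext n; simp [coef]
      show (1 : ℂ) = Complex.exp (LSeries (coef (fun _ => ((0 : ℝ) : ℂ))) s)
      rw [this]
      simp
    · rintro S _ U ⟨c, hg, hm, hc⟩
      have hUimm : IsOpenImmersion U.2.fromSpec := U.2.isOpenImmersion_fromSpec
      have hfg : Algebra.FiniteType ℤ Γ(X, U) := finiteType_of_imm f U.2.fromSpec
      have hZ : IsClosed (U.2.fromSpec ⁻¹' ((S : Set X)ᶜ)) :=
        S.isOpen.isClosed_compl.preimage U.2.fromSpec.continuous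
      have h1 := hasCount_stratum U.2.fromSpec ((S : Set X)ᶜ) hZ
      rw [U.2.range_fromSpec] at h1
      have hd : Disjoint (S : Set X) ((U : Set X) ∩ (S : Set X)ᶜ) := by
        rw [Set.disjoint_left]; intro x hx hx'; exact hx'.2 hx
      have h2 := hc.union h1 hd
      have e : (S : Set X) ∪ ((U : Set X) ∩ (S : Set X)ᶜ) = ((S ⊔ U : X.Opens) : Set X) := by
        ext x
        simp only [Set.mem_union, Set.mem_inter_iff, Set.mem_compl_iff,
          TopologicalSpace.Opens.coe_sup]
        tauto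
      rw [e] at h2
      refine ⟨_, ?_, ?_, h2⟩
      · simpa using hg.add (growth_cnt Γ(X, U) _)
      · simpa using Mero.add hg (growth_cnt Γ(X, U) _) hm (hAff Γ(X, U) _)
  obtain ⟨c, hg, ⟨F, hF, σ, hσ⟩, hc⟩ := key
  obtain ⟨σ', hσ'⟩ := euler_scheme f hg hc
  refine ⟨F, hF, max σ σ', fun s hs => ?_⟩
  rw [hσ s ((max_lt_iff.mp hs).1), hσ' s ((max_lt_iff.mp hs).2)]

end Pool.Agent.Helper29.Zeta
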