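import Pool.Agent.Helper29.Zeta.Univ

/-!
# Reduction of the meromorphic continuation of zeta functions to trilinear hypersurfaces
-/

set_option autoImplicit false

open Finset AlgebraicGeometry CategoryTheory
open scoped Classical

namespace Pool.Agent.Helper29.Zeta

noncomputable instance (n : ℕ) : Fintype (FF n) := Fintype.ofFinite _

lemma fcard_FF {n : ℕ} (hn : IsPrimePow n) : Fintype.card (FF n) = n := by
  rw [← Nat.card_eq_fintype_card, card_FF hn]

/-! ### Presentations -/

lemma exists_presentation (A : Type) [CommRing A] [Algebra.FiniteType ℤ A] (I : Ideal A) :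
    ∃ (r d C : ℕ) (Φ : Type) (_ : Fintype Φ) (c : Φ → Mon r d → ℤ),
      (∀ f m, (c f m).natAbs ≤ C) ∧ ∀ n, cnt A I n = zcount (FF n) c := by
  obtain ⟨r, g, hg⟩ := Algebra.FiniteType.iff_quotient_mvPolynomial''.mp
    (inferInstance : Algebra.FiniteType ℤ A)
  have hfg : (Ideal.comap g I).FG := IsNoetherian.noetherian _
  obtain ⟨S, hS⟩ := hfg
  let d : ℕ := S.sup MvPolynomial.totalDegree
  let toF : Mon r d → (Fin r →₀ ℕ) := fun m => Finsupp.equivFunOnFinite.symm (fun i => (m i : ℕ))
  have toF_apply : ∀ m i, toF m i = (m i : ℕ) := fun m i => rfl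
  have toF_inj : Function.Injective toF := by
    intro m m' h
    funext i
    apply Fin.ext
    rw [← toF_apply, ← toF_apply, h]
  let c : S → Mon r d → ℤ := fun f m => MvPolynomial.coeff (toF m) f.1
  let C : ℕ := ∑ f : S, ∑ m, (c f m).natAbs
  refine ⟨r, d, C, S, inferInstance, c, ?_, ?_⟩
  · intro f m
    calc (c f m).natAbs ≤ ∑ m, (c f m).natAbs :=
          Finset.single_le_sum (f := fun m => (c f m).natAbs) (fun _ _ => Nat.zero_le _)
            (mem_univ m)
      _ ≤ C := Finset.single_le_sum (f := fun f => ∑ m, (c f m).natAbs)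
            (fun _ _ => Nat.zero_le _) (mem_univ f)
  · intro n
    -- values of the polynomials
    have hval : ∀ (f : S) (x : Fin r → FF n), pval c f x = MvPolynomial.aeval x f.1 := by
      intro f x
      rw [MvPolynomial.aeval_def, MvPolynomial.eval₂_eq']
      unfold pval
      have h1 : ∑ m, ((c f m : ℤ) : FF n) * mval x m = ∑ e ∈ univ.image toF,
          (algebraMap ℤ (FF n)) (MvPolynomial.coeff e f.1) * ∏ i, x i ^ e i := by
        rw [Finset.sum_image (fun a _ b _ h => toF_inj h)]
        refine Finset.sum_congr rfl fun m _ => ?_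
        rfl
      rw [h1]
      symm
      refine Finset.sum_subset ?_ ?_
      · intro e he
        rw [Finset.mem_image]
        have hb : ∀ i, e i < d + 2 := by
          intro i
          have h2 : e i ≤ MvPolynomial.totalDegree f.1 := by
            by_cases h0 : e i = 0
            · omega
            · exact (Finset.single_le_sum (f := fun i => e i) (fun _ _ => Nat.zero_le _)
                (Finsupp.mem_support_iff.mpr h0)).trans (MvPolynomial.le_totalDegree he)
          have h3 : MvPolynomial.totalDegree f.1 ≤ d := Finset.le_sup f.2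
          omega
        refine ⟨fun i => ⟨e i, hb i⟩, mem_univ _, ?_⟩
        ext i; rfl
      · intro e _ he
        rw [MvPolynomial.notMem_support_iff.mp he]
        simp
    unfold cnt zcount
    congr 1
    have h2 : (univ.filter fun x : Fin r → FF n => ∀ f, pval c f x = 0).card =
        Nat.card {x : Fin r → FF n // ∀ f, pval c f x = 0} := by
      rw [Nat.card_eq_fintype_card, Fintype.card_subtype]
    rw [h2]
    refine Nat.card_congr (Equiv.ofBijective
      (fun φ => ⟨fun i => φ.1 (g (MvPolynomial.X i)), ?_⟩) ⟨?_, ?_⟩)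
    · intro f
      rw [hval]
      have h3 : (φ.1.comp (g : MvPolynomial (Fin r) ℤ →+* A)) =
          ((MvPolynomial.aeval (fun i => φ.1 (g (MvPolynomial.X i))) :
            MvPolynomial (Fin r) ℤ →ₐ[ℤ] FF n) : MvPolynomial (Fin r) ℤ →+* FF n) := by
        refine MvPolynomial.ringHom_ext' (RingHom.ext_int _ _) fun i => ?_
        simp
      have h4 := congrArg (fun ψ : MvPolynomial (Fin r) ℤ →+* FF n => ψ f.1) h3
      have h5 : φ.1 (g f.1) = 0 := by
        have h6 : f.1 ∈ Ideal.comap g I := by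
          rw [← hS]; exact Ideal.subset_span f.2
        exact φ.2 h6
      rw [← show φ.1 (g f.1) = (MvPolynomial.aeval (fun i => φ.1 (g (MvPolynomial.X i)))) f.1
        from h4]
      exact h5
    · intro φ ψ h
      apply Subtype.ext
      have h1 : ∀ i, φ.1 (g (MvPolynomial.X i)) = ψ.1 (g (MvPolynomial.X i)) := fun i =>
        congrFun (congrArg Subtype.val h) i
      have h3 : (φ.1.comp (g : MvPolynomial (Fin r) ℤ →+* A)) =
          (ψ.1.comp (g : MvPolynomial (Fin r) ℤ →+* A)) :=
        MvPolynomial.ringHom_ext' (RingHom.ext_int _ _) fun i => h1 i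
      ext a
      obtain ⟨p, rfl⟩ := hg a
      exact congrArg (fun χ : MvPolynomial (Fin r) ℤ →+* FF n => χ p) h3
    · rintro ⟨x, hx⟩
      let ev : MvPolynomial (Fin r) ℤ →+* FF n :=
        ((MvPolynomial.aeval x : MvPolynomial (Fin r) ℤ →ₐ[ℤ] FF n) :
          MvPolynomial (Fin r) ℤ →+* FF n)
      have hker : Ideal.comap g I ≤ RingHom.ker ev := by
        rw [← hS, Ideal.span_le]
        intro f hf
        have := hx ⟨f, hf⟩
        rw [hval] at this
        exact this
      have hker2 : RingHom.ker (g : MvPolynomial (Fin r) ℤ →+* A) ≤ RingHom.ker ev := by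
        intro p hp
        refine hker ?_
        have h0 : g p = 0 := hp
        show g p ∈ I
        rw [h0]; exact I.zero_mem
      let φ : A →+* FF n := RingHom.liftOfSurjective (g : MvPolynomial (Fin r) ℤ →+* A) hg
        ⟨ev, hker2⟩
      have hφ : ∀ p, φ (g p) = ev p := fun p =>
        RingHom.liftOfRightInverse_comp_apply _ _ (Function.rightInverse_surjInv hg) ⟨ev, hker2⟩ p
      refine ⟨⟨φ, ?_⟩, ?_⟩
      · intro a ha
        obtain ⟨p, rfl⟩ := hg a
        rw [RingHom.mem_ker, hφ]
        exact hker ha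
      · apply Subtype.ext
        funext i
        show φ (g (MvPolynomial.X i)) = x i
        rw [hφ]
        simp [ev]

/-! ### Trilinear hypersurfaces -/

/-- the trilinear form `∑ x_i y_j z_l` over `(i, j, l) ∈ T` -/
noncomputable def triPoly (N : ℕ) (T : Finset (Fin N × Fin N × Fin N)) :
    MvPolynomial (Fin 3 × Fin N) ℤ :=
  ∑ t ∈ T, MvPolynomial.X (0, t.1) * MvPolynomial.X (1, t.2.1) * MvPolynomial.X (2, t.2.2)

/-- its coordinate ring -/
abbrev TriRing (N : ℕ) (T : Finset (Fin N × Fin N × Fin N)) : Type :=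
  MvPolynomial (Fin 3 × Fin N) ℤ ⧸ Ideal.span {triPoly N T}

/-- its number of zeros over `k` -/
noncomputable def TriCount (k : Type) [Field k] [Fintype k] (N : ℕ)
    (T : Finset (Fin N × Fin N × Fin N)) : ℝ :=
  ∑ x : Fin N → k, ∑ y : Fin N → k, ∑ z : Fin N → k,
    if ∑ t ∈ T, x t.1 * y t.2.1 * z t.2.2 = 0 then (1 : ℝ) else 0

/-- splitting the variables -/
def split3 (N : ℕ) (k : Type) : (Fin 3 × Fin N → k) ≃ (Fin N → k) × (Fin N → k) × (Fin N → k) where
  toFun x := (fun i => x (0, i), fun i => x (1, i), fun i => x (2, i))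
  invFun p := fun q => if q.1 = 0 then p.1 q.2 else if q.1 = 1 then p.2.1 q.2 else p.2.2 q.2
  left_inv x := by
    funext ⟨a, i⟩
    fin_cases a <;> rfl
  right_inv p := rfl

lemma cnt_tri (N : ℕ) (T : Finset (Fin N × Fin N × Fin N)) (n : ℕ) :
    cnt (TriRing N T) ⊥ n = TriCount (FF n) N T := by
  have h1 : TriCount (FF n) N T =
      ((univ.filter fun x : Fin 3 × Fin N → FF n =>
        MvPolynomial.aeval x (triPoly N T) = 0).card : ℝ) := by
    rw [Finset.card_filter]
    push_cast
    rw [← Equiv.sum_comp (split3 N (FF n)).symm, Fintype.sum_prod_type]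
    unfold TriCount
    refine Finset.sum_congr rfl fun x _ => ?_
    rw [Fintype.sum_prod_type]
    refine Finset.sum_congr rfl fun y _ => Finset.sum_congr rfl fun z _ => ?_
    refine if_congr ?_ rfl rfl
    unfold triPoly
    rw [map_sum]
    simp only [map_mul, MvPolynomial.aeval_X]
    exact Iff.rfl
  rw [h1]
  unfold cnt
  congr 1
  rw [← Fintype.card_subtype, ← Nat.card_eq_fintype_card]
  refine Nat.card_congr (Equiv.ofBijective
      (fun φ => ⟨fun i => φ.1 (Ideal.Quotient.mk _ (MvPolynomial.X i)), ?_⟩) ⟨?_, ?_⟩)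
  · have h3 : (φ.1.comp (Ideal.Quotient.mk (Ideal.span {triPoly N T}))) =
          ((MvPolynomial.aeval (fun i => φ.1 (Ideal.Quotient.mk _ (MvPolynomial.X i))) :
            MvPolynomial (Fin 3 × Fin N) ℤ →ₐ[ℤ] FF n) :
              MvPolynomial (Fin 3 × Fin N) ℤ →+* FF n) := by
      refine MvPolynomial.ringHom_ext' (RingHom.ext_int _ _) fun i => ?_
      simp
    have h4 := congrArg (fun ψ : MvPolynomial (Fin 3 × Fin N) ℤ →+* FF n => ψ (triPoly N T)) h3
    refine Eq.trans h4.symm ?_
    show φ.1 (Ideal.Quotient.mk (Ideal.span {triPoly N T}) (triPoly N T)) = 0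
    rw [Ideal.Quotient.eq_zero_iff_mem.mpr (Ideal.subset_span (Set.mem_singleton _)), map_zero]
  · intro φ ψ h
    apply Subtype.ext
    refine Ideal.Quotient.ringHom_ext ?_
    exact MvPolynomial.ringHom_ext' (RingHom.ext_int _ _) fun i =>
      congrFun (congrArg Subtype.val h) i
  · rintro ⟨x, hx⟩
    let ev : MvPolynomial (Fin 3 × Fin N) ℤ →+* FF n :=
      ((MvPolynomial.aeval x : MvPolynomial (Fin 3 × Fin N) ℤ →ₐ[ℤ] FF n) :
        MvPolynomial (Fin 3 × Fin N) ℤ →+* FF n)
    have hker : ∀ a ∈ Ideal.span {triPoly N T}, ev a = 0 := by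
      intro a ha
      obtain ⟨b, rfl⟩ := Ideal.mem_span_singleton.mp ha
      have h0 : ev (triPoly N T) = 0 := hx
      rw [map_mul, h0, zero_mul]
    refine ⟨⟨Ideal.Quotient.lift (Ideal.span {triPoly N T}) ev hker, bot_le⟩, ?_⟩
    apply Subtype.ext
    funext i
    show Ideal.Quotient.lift (Ideal.span {triPoly N T}) ev hker
        (Ideal.Quotient.mk _ (MvPolynomial.X i)) = x i
    rw [Ideal.Quotient.lift_mk]
    simp [ev]

/-! ### Padding -/

/-- splitting functions along a decomposition of the index type -/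
def splitE {k I L J : Type} (e : I ⊕ L ≃ J) : (J → k) ≃ (I → k) × (L → k) where
  toFun x := (fun i => x (e (Sum.inl i)), fun l => x (e (Sum.inr l)))
  invFun p := fun j => Sum.elim p.1 p.2 (e.symm j)
  left_inv x := by
    funext j
    obtain ⟨q, rfl⟩ := e.surjective j
    rcases q with i | l <;> simp
  right_inv p := by simp

lemma sum_pad {k I L J : Type} [Fintype k] [Fintype I] [Fintype L] [Fintype J] [DecidableEq J]
    [DecidableEq I] (e : I ⊕ L ≃ J) (F : (I → k) → ℝ) :
    ∑ x : J → k, F (fun i => x (e (Sum.inl i))) =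
      (Fintype.card k : ℝ) ^ (Fintype.card L) * ∑ u : I → k, F u := by
  have h1 : ∑ x : J → k, F (fun i => x (e (Sum.inl i))) =
      ∑ p : (I → k) × (L → k), F p.1 :=
    Equiv.sum_comp (splitE (k := k) e) (fun p => F p.1)
  rw [h1, Fintype.sum_prod_type, Finset.mul_sum]
  refine Finset.sum_congr rfl fun u _ => ?_
  simp

lemma tri_pad {I K : Type} [Fintype I] [Fintype K] [DecidableEq I] [DecidableEq K] (E : K → Finset (I × I)) :
    ∃ (N : ℕ) (T : Finset (Fin N × Fin N × Fin N)) (a : ℕ),
      ∀ (k : Type) [Field k] [Fintype k],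
      TriCount k N T = (Fintype.card k : ℝ) ^ a * Tri k E := by
  let N := Fintype.card I + Fintype.card K
  let e₁ : I ⊕ Fin (Fintype.card K) ≃ Fin N := Fintype.equivOfCardEq (by simp [N])
  let e₂ : K ⊕ Fin (Fintype.card I) ≃ Fin N := Fintype.equivOfCardEq (by simp [N, add_comm])
  let f : (Σ _ : K, I × I) → Fin N × Fin N × Fin N := fun s =>
    (e₁ (Sum.inl s.2.1), e₁ (Sum.inl s.2.2), e₂ (Sum.inl s.1))
  have hf : Function.Injective f := by
    rintro ⟨κ, i, j⟩ ⟨κ', i', j'⟩ h
    simp only [f, Prod.mk.injEq, EmbeddingLike.apply_eq_iff_eq, Sum.inl.injEq] at h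
    obtain ⟨rfl, rfl, rfl⟩ := h
    rfl
  refine ⟨N, (Finset.univ.sigma E).image f, Fintype.card K + Fintype.card K + Fintype.card I,
    fun k _ _ => ?_⟩
  have h1 : ∀ x y z : Fin N → k, ∑ t ∈ (Finset.univ.sigma E).image f,
      x t.1 * y t.2.1 * z t.2.2 =
      ∑ κ, bil (E κ) (fun i => x (e₁ (Sum.inl i))) (fun i => y (e₁ (Sum.inl i))) *
        z (e₂ (Sum.inl κ)) := by
    intro x y z
    rw [Finset.sum_image (fun a _ b _ h => hf h), Finset.sum_sigma]
    refine Finset.sum_congr rfl fun κ _ => ?_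
    unfold bil
    rw [Finset.sum_mul]
  unfold TriCount Tri
  simp only [h1]
  have h2 : ∀ x y : Fin N → k, ∑ z : Fin N → k,
      (if ∑ κ, bil (E κ) (fun i => x (e₁ (Sum.inl i))) (fun i => y (e₁ (Sum.inl i))) *
        z (e₂ (Sum.inl κ)) = 0 then (1 : ℝ) else 0) =
      (Fintype.card k : ℝ) ^ (Fintype.card I) * ∑ z : K → k,
        (if ∑ κ, bil (E κ) (fun i => x (e₁ (Sum.inl i))) (fun i => y (e₁ (Sum.inl i))) *
        z κ = 0 then (1 : ℝ) else 0) := by
    intro x y
    have := sum_pad (k := k) e₂ (fun z : K → k =>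
      (if ∑ κ, bil (E κ) (fun i => x (e₁ (Sum.inl i))) (fun i => y (e₁ (Sum.inl i))) *
        z κ = 0 then (1 : ℝ) else 0))
    rw [Fintype.card_fin] at this
    exact this
  simp only [h2]
  have h3 : ∀ x : Fin N → k, ∑ y : Fin N → k, (Fintype.card k : ℝ) ^ (Fintype.card I) *
      ∑ z : K → k, (if ∑ κ, bil (E κ) (fun i => x (e₁ (Sum.inl i)))
        (fun i => y (e₁ (Sum.inl i))) * z κ = 0 then (1 : ℝ) else 0) =
      (Fintype.card k : ℝ) ^ (Fintype.card K) * ∑ y : I → k,
        (Fintype.card k : ℝ) ^ (Fintype.card I) *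
      ∑ z : K → k, (if ∑ κ, bil (E κ) (fun i => x (e₁ (Sum.inl i))) y * z κ = 0
        then (1 : ℝ) else 0) := by
    intro x
    have := sum_pad (k := k) e₁ (fun y : I → k => (Fintype.card k : ℝ) ^ (Fintype.card I) *
      ∑ z : K → k, (if ∑ κ, bil (E κ) (fun i => x (e₁ (Sum.inl i))) y * z κ = 0
        then (1 : ℝ) else 0))
    rw [Fintype.card_fin] at this
    exact this
  simp only [h3]
  have h4 := sum_pad (k := k) e₁ (fun x : I → k => (Fintype.card k : ℝ) ^ (Fintype.card K) *
    ∑ y : I → k, (Fintype.card k : ℝ) ^ (Fintype.card I) *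
      ∑ z : K → k, (if ∑ κ, bil (E κ) x y * z κ = 0 then (1 : ℝ) else 0))
  rw [Fintype.card_fin] at h4
  refine h4.trans ?_
  simp only [← Finset.mul_sum]
  ring

/-! ### Zeta functions of affine schemes -/

lemma HasCount.congr {X : Scheme.{0}} {S : Set X} {c c' : ℕ → ℝ} (h : HasCount S c)
    (hc : ∀ n, c n = c' n) : HasCount S c' := by
  have : c = c' := funext hc
  rw [← this]; exact h

lemma mero_of_spec (A : Type) [CommRing A] [Algebra.FiniteType ℤ A]
    (h : ZetaMero (Spec (CommRingCat.of A))) : Mero (fun n => (cnt A ⊥ n : ℂ)) := by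
  let f : Spec (CommRingCat.of A) ⟶ Spec (CommRingCat.of ℤ) :=
    Spec.map (CommRingCat.ofHom (algebraMap ℤ A))
  have hf : LocallyOfFiniteType f := by
    rw [HasRingHomProperty.Spec_iff (P := @LocallyOfFiniteType)]
    exact RingHom.finiteType_algebraMap.mpr inferInstance
  have hJ : JacobsonSpace (Spec (CommRingCat.of A)) := LocallyOfFiniteType.jacobsonSpace f
  have hfg : Algebra.FiniteType ℤ (CommRingCat.of A) := ‹Algebra.FiniteType ℤ A›
  have h1 := hasCount_stratum (𝟙 (Spec (CommRingCat.of A))) Set.univ isClosed_univ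
  have e : Set.range (𝟙 (Spec (CommRingCat.of A)) : Spec (CommRingCat.of A) ⟶ _) ∩ Set.univ =
      (Set.univ : Set (Spec (CommRingCat.of A))) := by
    ext x; simp
  rw [e] at h1
  have h2 : HasCount (Set.univ : Set (Spec (CommRingCat.of A))) (cnt A ⊥) := by
    refine h1.congr fun n => ?_
    unfold cnt
    congr 1
    refine Nat.card_congr
      { toFun := fun φ => ⟨φ.1, bot_le⟩
        invFun := fun φ => ⟨φ.1, ?_⟩
        left_inv := fun φ => rfl
        right_inv := fun φ => rfl }
    intro a ha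
    have h3 := (PrimeSpectrum.mem_vanishingIdeal _ a).mp ha
      (⟨RingHom.ker φ.1, RingHom.ker_isPrime φ.1⟩ : PrimeSpectrum A) trivial
    exact h3
  obtain ⟨σ, hσ⟩ := euler_scheme f (growth_cnt A ⊥) h2
  obtain ⟨F, hF, σ', hσ'⟩ := h
  refine ⟨F, hF, max σ σ', fun s hs => ?_⟩
  rw [hσ' s ((max_lt_iff.mp hs).2), hσ s ((max_lt_iff.mp hs).1)]

end Pool.Agent.Helper29.Zeta
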