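import Pool.Agent.Helper29.Zeta.Poly

/-!
# Counting functions as combinations of counting functions of trilinear hypersurfaces
-/

set_option autoImplicit false

open Finset AlgebraicGeometry CategoryTheory
open scoped Classical

namespace Pool.Agent.Helper29.Zeta

/-- a trilinear form with coefficients 0 and 1 -/
abbrev TriData : Type := Σ N : ℕ, Finset (Fin N × Fin N × Fin N)

/-- the value at `n` of a combination of counting functions of trilinear forms -/
noncomputable def comb (L : List (TriData × Polynomial ℤ)) (k : Type) [Field k] [Fintype k] : ℝ :=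
  (L.map fun t => ((t.2.eval (Fintype.card k : ℤ) : ℤ) : ℝ) * TriCount k t.1.1 t.1.2).sum

/-- `c` is, up to inverting `n` and `n - 1`, such a combination -/
def Rep (c : ℕ → ℝ) : Prop :=
  ∃ (a b : ℕ) (L : List (TriData × Polynomial ℤ)), ∀ n : ℕ, IsPrimePow n →
    (n : ℝ) ^ a * ((n : ℝ) - 1) ^ b * c n = comb L (FF n)

lemma Rep.congr {c c' : ℕ → ℝ} (h : Rep c) (hc : ∀ n, IsPrimePow n → c n = c' n) : Rep c' := by
  obtain ⟨a, b, L, hL⟩ := h
  exact ⟨a, b, L, fun n hn => by rw [← hc n hn]; exact hL n hn⟩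

lemma comb_mul (L : List (TriData × Polynomial ℤ)) (P : Polynomial ℤ) (k : Type) [Field k]
    [Fintype k] : comb (L.map fun t => (t.1, P * t.2)) k =
      ((P.eval (Fintype.card k : ℤ) : ℤ) : ℝ) * comb L k := by
  unfold comb
  rw [← List.sum_map_mul_left, List.map_map]
  congr 1
  refine List.map_congr_left fun t _ => ?_
  simp only [Function.comp, Polynomial.eval_mul]
  push_cast; ring

lemma Rep.mul_poly {c : ℕ → ℝ} (h : Rep c) (P : Polynomial ℤ) :
    Rep (fun n => ((P.eval (n : ℤ) : ℤ) : ℝ) * c n) := by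
  obtain ⟨a, b, L, hL⟩ := h
  refine ⟨a, b, L.map fun t => (t.1, P * t.2), fun n hn => ?_⟩
  rw [comb_mul, fcard_FF hn, ← hL n hn]
  ring

lemma Rep.add {c c' : ℕ → ℝ} (h : Rep c) (h' : Rep c') : Rep (fun n => c n + c' n) := by
  obtain ⟨a, b, L, hL⟩ := h
  obtain ⟨a', b', L', hL'⟩ := h'
  refine ⟨a + a', b + b',
    (L.map fun t => (t.1, (Polynomial.X ^ a' * (Polynomial.X - 1) ^ b') * t.2)) ++
    (L'.map fun t => (t.1, (Polynomial.X ^ a * (Polynomial.X - 1) ^ b) * t.2)), fun n hn => ?_⟩
  have e : ∀ L1 L2, comb (L1 ++ L2) (FF n) = comb L1 (FF n) + comb L2 (FF n) := by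
    intro L1 L2
    unfold comb
    rw [List.map_append, List.sum_append]
  rw [e, comb_mul, comb_mul, fcard_FF hn, ← hL n hn, ← hL' n hn]
  simp only [Polynomial.eval_mul, Polynomial.eval_pow, Polynomial.eval_X, Polynomial.eval_sub,
    Polynomial.eval_one]
  push_cast
  ring

lemma Rep.of_div {c : ℕ → ℝ} (a b : ℕ)
    (h : Rep (fun n => (n : ℝ) ^ a * ((n : ℝ) - 1) ^ b * c n)) : Rep c := by
  obtain ⟨a', b', L, hL⟩ := h
  refine ⟨a' + a, b' + b, L, fun n hn => ?_⟩
  rw [← hL n hn]; ring

lemma rep_triCount (N : ℕ) (T : Finset (Fin N × Fin N × Fin N)) :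
    Rep (fun n => TriCount (FF n) N T) := by
  refine ⟨0, 0, [(⟨N, T⟩, 1)], fun n _ => ?_⟩
  simp [comb]

lemma rep_one : Rep (fun _ => 1) := by
  refine (rep_triCount 0 ∅).congr fun n _ => ?_
  unfold TriCount
  simp

lemma rep_poly (P : Polynomial ℤ) : Rep (fun n => ((P.eval (n : ℤ) : ℤ) : ℝ)) := by
  simpa using rep_one.mul_poly P

lemma rep_Tri {I K : Type} [Fintype I] [Fintype K] [DecidableEq I] [DecidableEq K]
    (E : K → Finset (I × I)) : Rep (fun n => Tri (FF n) E) := by
  obtain ⟨N, T, a, h⟩ := tri_pad E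
  refine Rep.of_div a 0 ((rep_triCount N T).congr fun n hn => ?_)
  rw [h (FF n), fcard_FF hn]
  simp

lemma rep_Sol {I K : Type} [Fintype I] [Fintype K] [DecidableEq I] [DecidableEq K]
    (E : K → Finset (I × I)) : Rep (fun n => Sol (FF n) E) := by
  refine Rep.of_div (Fintype.card K) 1 ?_
  have h1 := ((rep_Tri E).mul_poly Polynomial.X).add
    (rep_poly (-Polynomial.X ^ (Fintype.card K + (Fintype.card I + Fintype.card I))))
  refine h1.congr fun n hn => ?_
  have h2 := tri_eq (k := FF n) E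
  rw [fcard_FF hn] at h2
  simp only [Polynomial.eval_X, Polynomial.eval_neg, Polynomial.eval_pow]
  push_cast
  rw [h2]; ring

lemma rep_zcount {r d C : ℕ} {Φ : Type} [Fintype Φ] (c : Φ → Mon r d → ℤ)
    (hC : ∀ f m, (c f m).natAbs ≤ C) : Rep (fun n => zcount (FF n) c) := by
  set E : Kx r d C Φ → Finset (Ix r d C × Ix r d C) := Ex c with hE
  refine Rep.of_div 2 2 ?_
  have h1 := (((rep_Sol E).mul_poly (Polynomial.X ^ 2)).add
    ((rep_Sol (rmL ox E)).mul_poly (-Polynomial.X))).add
    (((rep_Sol (rmR ox E)).mul_poly (-Polynomial.X)).add (rep_Sol (rmR ox (rmL ox E))))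
  refine h1.congr fun n hn => ?_
  have h2 := sol_incl_excl (k := FF n) (ox : Ix r d C) (ox : Ix r d C) E
  rw [hE, count_univ c hC, ← hE, fcard_FF hn] at h2
  simp only [Polynomial.eval_X, Polynomial.eval_neg, Polynomial.eval_pow]
  push_cast
  linear_combination -h2

theorem rep_cnt (A : Type) [CommRing A] [Algebra.FiniteType ℤ A] (I : Ideal A) :
    Rep (cnt A I) := by
  obtain ⟨r, d, C, Φ, _, c, hC, h⟩ := exists_presentation A I
  refine (rep_zcount c hC).congr fun n _ => ?_
  rw [h n]

lemma exists_count_rep {X : Scheme.{0}} (f : X ⟶ Spec (CommRingCat.of ℤ))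
    [LocallyOfFiniteType f] [QuasiCompact f] :
    ∃ c : ℕ → ℝ, Rep c ∧ HasCount (Set.univ : Set X) c := by
  have hJ : JacobsonSpace X := LocallyOfFiniteType.jacobsonSpace f
  have hcomp : CompactSpace X := QuasiCompact.compactSpace_of_compactSpace f
  have key : ∃ c : ℕ → ℝ, Rep c ∧ HasCount ((⊤ : X.Opens) : Set X) c := by
    refine compact_open_induction_on
      (P := fun S : X.Opens => ∃ c : ℕ → ℝ, Rep c ∧ HasCount (S : Set X) c) ⊤ isCompact_univ ?_ ?_
    · refine ⟨fun _ => 0, ?_, HasCount.empty⟩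
      simpa using rep_poly 0
    · rintro S _ U ⟨c, hg, hc⟩
      have hUimm : IsOpenImmersion U.2.fromSpec := U.2.isOpenImmersion_fromSpec
      have hfg : Algebra.FiniteType ℤ Γ(X, U) := finiteType_of_imm f U.2.fromSpec
      have hZ : IsClosed (U.2.fromSpec ⁻¹' ((S : Set X)ᶜ)) :=
        S.isOpen.isClosed_compl.preimage U.2.fromSpec.continuous
      have h1 := hasCount_stratum U.2.fromSpec ((S : Set X)ᶜ) hZ
      rw [U.2.range_fromSpec] at h1
      have hd : Disjoint (S : Set X) ((U : Set X) ∩ (S : Set X)ᶜ) := by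
        rw [Set.disjoint_left]; intro x hx hx'; exact hx'.2 hx
      have h2 := hc.union h1 hd
      have e : (S : Set X) ∪ ((U : Set X) ∩ (S : Set X)ᶜ) = ((S ⊔ U : X.Opens) : Set X) := by
        ext x
        simp only [Set.mem_union, Set.mem_inter_iff, Set.mem_compl_iff,
          TopologicalSpace.Opens.coe_sup]
        tauto
      rw [e] at h2
      exact ⟨_, hg.add (rep_cnt Γ(X, U) _), h2⟩
  obtain ⟨c, hg, hc⟩ := key
  exact ⟨c, hg, hc⟩

theorem rep_ptCount {X : Scheme.{0}} (f : X ⟶ Spec (CommRingCat.of ℤ))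
    [LocallyOfFiniteType f] [QuasiCompact f] : Rep (ptCount X) := by
  obtain ⟨c, hr, hc⟩ := exists_count_rep f
  exact hr.congr fun n hn => (ptCount_eq f hc n hn).symm

/-! ### All finite fields -/

lemma natCard_pts_congr (X : Scheme.{0}) {k k' : Type} [Field k] [Field k'] (e : k ≃+* k') :
    Nat.card (Spec (CommRingCat.of k) ⟶ X) = Nat.card (Spec (CommRingCat.of k') ⟶ X) := by
  let i : Spec (CommRingCat.of k) ≅ Spec (CommRingCat.of k') :=
    Scheme.Spec.mapIso (RingEquiv.toCommRingCatIso e).symm.op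
  exact Nat.card_congr (i.homFromEquiv)

/-- the number of zeros of the trilinear form of `T` over `k` -/
noncomputable def zeros (k : Type) [Field k] (N : ℕ) (T : Finset (Fin N × Fin N × Fin N)) : ℕ :=
  Nat.card {v : Fin 3 × Fin N → k // ∑ t ∈ T, v (0, t.1) * v (1, t.2.1) * v (2, t.2.2) = 0}

lemma zeros_eq (k : Type) [Field k] [Fintype k] (N : ℕ) (T : Finset (Fin N × Fin N × Fin N)) :
    (zeros k N T : ℝ) = TriCount k N T := by
  have h1 : TriCount k N T =
      ((univ.filter fun v : Fin 3 × Fin N → k =>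
        ∑ t ∈ T, v (0, t.1) * v (1, t.2.1) * v (2, t.2.2) = 0).card : ℝ) := by
    rw [Finset.card_filter]
    push_cast
    rw [← Equiv.sum_comp (split3 N k).symm, Fintype.sum_prod_type]
    unfold TriCount
    refine Finset.sum_congr rfl fun x _ => ?_
    rw [Fintype.sum_prod_type]
    exact Finset.sum_congr rfl fun y _ => Finset.sum_congr rfl fun z _ => rfl
  rw [h1, ← Fintype.card_subtype, ← Nat.card_eq_fintype_card]
  rfl

lemma zeros_congr {k k' : Type} [Field k] [Field k'] (e : k ≃+* k') (N : ℕ)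
    (T : Finset (Fin N × Fin N × Fin N)) : zeros k N T = zeros k' N T := by
  unfold zeros
  refine Nat.card_congr
    { toFun := fun v => ⟨fun i => e (v.1 i), ?_⟩
      invFun := fun v => ⟨fun i => e.symm (v.1 i), ?_⟩
      left_inv := fun v => ?_
      right_inv := fun v => ?_ }
  · have := congrArg e v.2
    simpa [map_sum, map_mul] using this
  · have := congrArg e.symm v.2
    simpa [map_sum, map_mul] using this
  · apply Subtype.ext; funext i; simp
  · apply Subtype.ext; funext i; simp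

/-- **Point counts.** -/
theorem count_theorem (X : Scheme.{0}) (f : X ⟶ Spec (CommRingCat.of ℤ))
    (hf : LocallyOfFiniteType f) (hq : QuasiCompact f) :
    ∃ (a b : ℕ) (L : List ((Σ N : ℕ, Finset (Fin N × Fin N × Fin N)) × Polynomial ℤ)),
      ∀ (k : Type) [Field k] [Finite k],
        (Nat.card k : ℤ) ^ a * ((Nat.card k : ℤ) - 1) ^ b *
          (Nat.card (Spec (CommRingCat.of k) ⟶ X) : ℤ) =
        (L.map fun t => t.2.eval (Nat.card k : ℤ) * (zeros k t.1.1 t.1.2 : ℤ)).sum := by
  obtain ⟨a, b, L, h⟩ := rep_ptCount f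
  refine ⟨a, b, L, fun k _ _ => ?_⟩
  have := Fintype.ofFinite k
  have hn : IsPrimePow (Nat.card k) := by
    rw [Nat.card_eq_fintype_card]; exact FiniteField.isPrimePow_card k
  set n := Nat.card k with hndef
  have hcard : Fintype.card k = Fintype.card (FF n) := by
    rw [fcard_FF hn, hndef, Nat.card_eq_fintype_card]
  let e : k ≃+* FF n := FiniteField.ringEquivOfCardEq hcard
  have h1 := h n hn
  have h2 : comb L (FF n) =
      ((L.map fun t => t.2.eval (n : ℤ) * (zeros k t.1.1 t.1.2 : ℤ)).sum : ℤ) := by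
    unfold comb
    rw [fcard_FF hn]
    rw [Int.cast_list_sum, List.map_map]
    congr 1
    refine List.map_congr_left fun t _ => ?_
    simp only [Function.comp]
    push_cast
    rw [zeros_congr e, zeros_eq]
  rw [h2] at h1
  unfold ptCount at h1
  rw [← natCard_pts_congr X e] at h1
  exact_mod_cast h1

end Pool.Agent.Helper29.Zeta
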