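import Pool.Agent.Helper29.Zeta.Count

/-!
# Every system of integer polynomial equations as a bilinear system with coefficients 0 and 1
-/

set_option autoImplicit false

open Finset
open scoped Classical

namespace Pool.Agent.Helper29.Zeta

section

variable (r d C : ℕ) (Φ : Type)

/-- exponent vectors -/
abbrev Mon : Type := Fin r → Fin (d + 2)

/-- the variables: a monomial, a copy number and a sign -/
abbrev Ix : Type := Mon r d × Fin (C + 1) × Bool

/-- the equations: negation, proportionality, products and the given polynomials -/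
abbrev Kx : Type :=
  (Mon r d × Fin (C + 1) × Fin (C + 1)) ⊕ Ix r d C ⊕ (Mon r d × Mon r d × Mon r d) ⊕ Φ

variable {r d C Φ}

/-- the variable of the constant monomial -/
def ox : Ix r d C := (0, 0, false)

/-- the monomial `x j` -/
def sgl (j : Fin r) : Mon r d := fun i => if i = j then 1 else 0

/-- the system attached to the polynomials with coefficients `c f m` -/
noncomputable def Ex (c : Φ → Mon r d → ℤ) : Kx r d C Φ → Finset (Ix r d C × Ix r d C)
  | Sum.inl (m, a, b) => {((m, a, false), ox), ((m, b, true), ox)}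
  | Sum.inr (Sum.inl i) => {(i, ox), ((0, 0, true), i)}
  | Sum.inr (Sum.inr (Sum.inl (m, m', m''))) =>
      if ∀ i, (m i : ℕ) + m' i = m'' i then
        {((m, 0, false), (m', 0, false)), ((m'', 0, true), ox)} else ∅
  | Sum.inr (Sum.inr (Sum.inr f)) =>
      (univ.filter fun i : Ix r d C =>
        (i.2.1 : ℕ) < (c f i.1).natAbs ∧ i.2.2 = decide (c f i.1 < 0)) ×ˢ {ox}

variable {k : Type} [Field k]

/-- the value of a monomial -/
def mval (x : Fin r → k) (m : Mon r d) : k := ∏ j, x j ^ (m j : ℕ)

/-- signs -/
def sgn (k : Type) [Field k] (b : Bool) : k := if b then -1 else 1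

/-- the normalised solution -/
def yhat (x : Fin r → k) (i : Ix r d C) : k := sgn k i.2.2 * mval x i.1

/-- the value of the polynomial `f` -/
def pval (c : Φ → Mon r d → ℤ) (f : Φ) (x : Fin r → k) : k := ∑ m, (c f m : k) * mval x m

lemma mval_zero (x : Fin r → k) : mval x (0 : Mon r d) = 1 := by
  simp [mval]

lemma mval_sgl (x : Fin r → k) (j : Fin r) : mval x (sgl j : Mon r d) = x j := by
  unfold mval sgl
  rw [Finset.prod_eq_single j]
  · simp
  · intro i _ hi; simp [hi]
  · intro h; exact (h (mem_univ _)).elim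

lemma yhat_ox (x : Fin r → k) : yhat x (ox : Ix r d C) = 1 := by
  simp [yhat, ox, mval_zero, sgn]

lemma bil_pair {I J : Type} [DecidableEq (I × J)] (p p' : I × J) (h : p ≠ p') (y : I → k) (y' : J → k) :
    bil {p, p'} y y' = y p.1 * y' p.2 + y p'.1 * y' p'.2 := by
  unfold bil
  rw [Finset.sum_pair h]

/-- the value of the polynomial equation on vectors with the right structure -/
lemma bil_poly (c : Φ → Mon r d → ℤ) (hC : ∀ f m, (c f m).natAbs ≤ C) (f : Φ)
    (y y' : Ix r d C → k) (v : Mon r d → k) (hy : ∀ i, y i = sgn k i.2.2 * v i.1) :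
    bil (Ex c (Sum.inr (Sum.inr (Sum.inr f))) : Finset (Ix r d C × Ix r d C)) y y' =
      (∑ m, (c f m : k) * v m) * y' ox := by
  unfold bil Ex
  rw [Finset.sum_product]
  simp only [Finset.sum_singleton]
  rw [← Finset.sum_mul]
  congr 1
  rw [Finset.sum_filter, Fintype.sum_prod_type]
  refine Finset.sum_congr rfl fun m _ => ?_
  rw [Fintype.sum_prod_type]
  simp only [Fintype.sum_bool, hy]
  have hcount : ∀ n : ℕ, n ≤ C → (∑ a : Fin (C + 1), if (a : ℕ) < n then (1 : k) else 0) = n := by
    intro n hn
    rw [Fin.sum_univ_eq_sum_range (fun a => if a < n then (1 : k) else 0) (C + 1),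
      ← Finset.sum_filter]
    have : (Finset.range (C + 1)).filter (fun a => a < n) = Finset.range n := by
      ext a; simp only [Finset.mem_filter, Finset.mem_range]; omega
    rw [this]; simp
  rcases lt_or_ge (c f m) 0 with h | h
  · have h1 : ((c f m : ℤ) : k) = -(((c f m).natAbs : ℕ) : k) := by
      have : (c f m : ℤ) = -((c f m).natAbs : ℤ) := by omega
      conv_lhs => rw [this]
      rw [Int.cast_neg, Int.cast_natCast]
    rw [h1, ← hcount _ (hC f m)]
    simp only [h, decide_true, sgn]
    rw [neg_mul, Finset.sum_mul, ← Finset.sum_neg_distrib]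
    refine Finset.sum_congr rfl fun a _ => ?_
    by_cases ha : (a : ℕ) < (c f m).natAbs <;> simp [ha]
  · have h1 : ((c f m : ℤ) : k) = (((c f m).natAbs : ℕ) : k) := by
      have : (c f m : ℤ) = ((c f m).natAbs : ℤ) := by omega
      conv_lhs => rw [this]
      rw [Int.cast_natCast]
    have h2 : ¬ (c f m < 0) := by omega
    rw [h1, ← hcount _ (hC f m)]
    simp only [h2, decide_false, sgn]
    rw [Finset.sum_mul]
    refine Finset.sum_congr rfl fun a _ => ?_
    by_cases ha : (a : ℕ) < (c f m).natAbs <;> simp [ha]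

/-- the structured vectors solve the system -/
lemma forward (c : Φ → Mon r d → ℤ) (hC : ∀ f m, (c f m).natAbs ≤ C) (x : Fin r → k)
    (hx : ∀ f, pval c f x = 0) (s t : k) (κ : Kx r d C Φ) :
    bil (Ex c κ) (fun i => s * yhat x i) (fun i => t * yhat x i) = 0 := by
  rcases κ with ⟨m, a, b⟩ | i | ⟨m, m', m''⟩ | f
  · show bil {((m, a, false), ox), ((m, b, true), ox)} _ _ = 0
    rw [bil_pair _ _ (by simp)]
    simp only [yhat_ox]
    simp only [yhat, sgn]
    simp
  · show bil {(i, ox), ((0, 0, true), i)} _ _ = 0
    rw [bil_pair]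
    · simp only [yhat_ox]
      simp only [yhat, sgn, mval_zero]
      simp only [if_true]
      ring
    · intro h
      have h1 : i = (0, 0, true) := congrArg Prod.fst h
      have h2 : (ox : Ix r d C) = i := congrArg Prod.snd h
      rw [h1] at h2
      have h3 := congrArg (fun z : Ix r d C => z.2.2) h2
      simp [ox] at h3
  · show bil (if ∀ i, (m i : ℕ) + m' i = m'' i then
        {((m, 0, false), (m', 0, false)), ((m'', 0, true), ox)} else ∅) _ _ = 0
    split_ifs with h
    · rw [bil_pair _ _ (by simp)]
      have h1 : mval x m'' = mval x m * mval x m' := by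
        unfold mval
        rw [← Finset.prod_mul_distrib]
        refine Finset.prod_congr rfl fun i _ => ?_
        rw [← h i, pow_add]
      simp only [yhat_ox]
      simp only [yhat, sgn, h1]
      simp only [if_true]
      simp only [Bool.false_eq_true, if_false]
      ring
    · simp [bil]
  · rw [bil_poly c hC f _ _ (fun m => s * mval x m) (fun i => by simp only [yhat]; ring)]
    have : ∑ m, (c f m : k) * (s * mval x m) = s * pval c f x := by
      unfold pval
      rw [Finset.mul_sum]
      exact Finset.sum_congr rfl fun m _ => by ring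
    rw [this, hx f]; simp

/-- every solution with non-zero `ox`-coordinates is structured -/
lemma backward (c : Φ → Mon r d → ℤ) (hC : ∀ f m, (c f m).natAbs ≤ C) (y y' : Ix r d C → k)
    (h0 : y ox ≠ 0) (h0' : y' ox ≠ 0) (h : ∀ κ : Kx r d C Φ, bil (Ex c κ) y y' = 0) :
    (∀ i, y i = y ox * yhat (fun j => y (sgl j, 0, false) / y ox) i) ∧
    (∀ i, y' i = y' ox * yhat (fun j => y (sgl j, 0, false) / y ox) i) ∧
    ∀ f, pval c f (fun j => y (sgl j, 0, false) / y ox) = 0 := by
  set x : Fin r → k := fun j => y (sgl j, 0, false) / y ox with hxdef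
  set v : Mon r d → k := fun m => y (m, 0, false) / y ox with hvdef
  -- negation
  have hN : ∀ m a b, y (m, a, false) = - y (m, b, true) := by
    intro m a b
    have h1 : bil {((m, a, false), ox), ((m, b, true), ox)} y y' = 0 := h (Sum.inl (m, a, b))
    rw [bil_pair _ _ (by simp)] at h1
    have h2 : (y (m, a, false) + y (m, b, true)) * y' ox = 0 := by rw [add_mul]; exact h1
    rcases mul_eq_zero.mp h2 with h3 | h3
    · exact eq_neg_of_add_eq_zero_left h3
    · exact (h0' h3).elim
  have hy : ∀ i, y i = sgn k i.2.2 * (y ox * v i.1) := by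
    rintro ⟨m, a, b⟩
    simp only [hvdef, sgn]
    rcases b with _ | _
    · simp only [Bool.false_eq_true, if_false]
      rw [hN m a 0, hN m 0 0]; field_simp
    · simp only [if_true]
      rw [hN m 0 a]; field_simp
  -- proportionality
  have hP : ∀ i, y' i = y' ox / y ox * y i := by
    intro i
    have h1 : bil {(i, ox), ((0, 0, true), i)} y y' = 0 := h (Sum.inr (Sum.inl i))
    rw [bil_pair] at h1
    · simp only at h1
      have h2 : y (0, 0, true) = - y ox := by
        have := hN 0 0 0
        rw [show ((0, 0, false) : Ix r d C) = ox from rfl] at this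
        rw [this, neg_neg]
      rw [h2] at h1
      field_simp
      linear_combination -h1
    · intro h
      have h1 : i = (0, 0, true) := congrArg Prod.fst h
      have h2 : (ox : Ix r d C) = i := congrArg Prod.snd h
      rw [h1] at h2
      have h3 := congrArg (fun z : Ix r d C => z.2.2) h2
      simp [ox] at h3
  -- products
  have hM : ∀ m m' m'' : Mon r d, (∀ i, (m i : ℕ) + m' i = m'' i) → v m'' = v m * v m' := by
    intro m m' m'' hm
    have h1 : bil (if ∀ i, (m i : ℕ) + m' i = m'' i then
        {((m, 0, false), (m', 0, false)), ((m'', 0, true), ox)} else ∅) y y' = 0 :=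
      h (Sum.inr (Sum.inr (Sum.inl (m, m', m''))))
    rw [if_pos hm, bil_pair _ _ (by simp)] at h1
    simp only at h1
    rw [hP (m', 0, false), hy (m, 0, false), hy (m', 0, false), hy (m'', 0, true)] at h1
    simp only [sgn, Bool.false_eq_true, if_false, if_true] at h1
    have h2 : y ox * y' ox * (v m * v m' - v m'') = 0 := by
      field_simp at h1
      linear_combination h1
    rcases mul_eq_zero.mp h2 with h3 | h3
    · exact (mul_ne_zero h0 h0' h3).elim
    · exact (sub_eq_zero.mp h3).symm
  have hv0 : v 0 = 1 := div_self h0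
  have hvx : ∀ j, v (sgl j) = x j := fun j => rfl
  -- induction on the total degree
  have hv : ∀ (n : ℕ) (m : Mon r d), ∑ i, (m i : ℕ) = n → v m = mval x m := by
    intro n
    induction n with
    | zero =>
      intro m hm
      have : m = 0 := by
        funext i
        have h1 := (Finset.sum_eq_zero_iff.mp hm) i (mem_univ i)
        exact Fin.ext h1
      rw [this, hv0, mval_zero]
    | succ n ih =>
      intro m hm
      have hex : ∃ j, (m j : ℕ) ≠ 0 := by
        by_contra hcon
        push Not at hcon
        have : ∑ i, (m i : ℕ) = 0 := Finset.sum_eq_zero fun i _ => hcon i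
        omega
      obtain ⟨j, hj⟩ := hex
      let m' : Mon r d := Function.update m j ⟨(m j : ℕ) - 1, by have := (m j).2; omega⟩
      have hadd : ∀ i, (m' i : ℕ) + (sgl j : Mon r d) i = m i := by
        intro i
        by_cases hi : i = j
        · subst hi
          simp only [m', Function.update_self, sgl, if_true]
          have : ((1 : Fin (d + 2)) : ℕ) = 1 := rfl
          omega
        · simp only [m', Function.update_of_ne hi, sgl, if_neg hi]
          simp
      have hsum : ∑ i, (m' i : ℕ) = n := by
        have h1 : ∑ i, (m i : ℕ) = ∑ i, (m' i : ℕ) + ∑ i, ((sgl j : Mon r d) i : ℕ) := by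
          rw [← Finset.sum_add_distrib]
          exact Finset.sum_congr rfl fun i _ => (hadd i).symm
        have h2 : ∑ i, ((sgl j : Mon r d) i : ℕ) = 1 := by
          rw [Finset.sum_eq_single j]
          · simp [sgl]
          · intro i _ hi; simp [sgl, hi]
          · intro h; exact (h (mem_univ _)).elim
        omega
      rw [hM m' (sgl j) m hadd, ih m' hsum, hvx]
      have h3 : mval x m = mval x m' * mval x (sgl j : Mon r d) := by
        unfold mval
        rw [← Finset.prod_mul_distrib]
        refine Finset.prod_congr rfl fun i _ => ?_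
        rw [← hadd i, pow_add]
      rw [h3, mval_sgl]
  have hv' : ∀ m, v m = mval x m := fun m => hv _ m rfl
  have hyy : ∀ i, y i = y ox * yhat x i := by
    intro i
    rw [hy i, hv']; unfold yhat; ring
  refine ⟨hyy, fun i => ?_, fun f => ?_⟩
  · rw [hP i, hyy i]; field_simp
  · have h1 := h (Sum.inr (Sum.inr (Sum.inr f)))
    rw [bil_poly c hC f y y' (fun m => y ox * v m) hy] at h1
    rcases mul_eq_zero.mp h1 with h2 | h2
    · have h3 : y ox * pval c f x = 0 := by
        rw [← h2]; unfold pval
        rw [Finset.mul_sum]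
        exact Finset.sum_congr rfl fun m _ => by rw [hv']; ring
      exact (mul_eq_zero.mp h3).resolve_left h0
    · exact (h0' h2).elim

variable [Fintype k] [Fintype Φ]

/-- the number of common zeros -/
noncomputable def zcount (k : Type) [Field k] [Fintype k] (c : Φ → Mon r d → ℤ) : ℝ :=
  ((univ.filter fun x : Fin r → k => ∀ f, pval c f x = 0).card : ℝ)

lemma count_univ (c : Φ → Mon r d → ℤ) (hC : ∀ f m, (c f m).natAbs ≤ C) :
    ∑ y : Ix r d C → k, ∑ y' : Ix r d C → k,
      (if y ox ≠ 0 ∧ y' ox ≠ 0 then ind (Ex c : Kx r d C Φ → _) y y' else 0) =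
    ((Fintype.card k : ℝ) - 1) ^ 2 * zcount k c := by
  set A : Finset ((Ix r d C → k) × (Ix r d C → k)) :=
    univ.filter fun p => (p.1 ox ≠ 0 ∧ p.2 ox ≠ 0) ∧
      ∀ κ : Kx r d C Φ, bil (Ex c κ) p.1 p.2 = 0 with hA
  set B : Finset (k × k × (Fin r → k)) :=
    (univ.filter fun s : k => s ≠ 0) ×ˢ (univ.filter fun s : k => s ≠ 0) ×ˢ
      (univ.filter fun x : Fin r → k => ∀ f, pval c f x = 0) with hB
  have h1 : ∑ y : Ix r d C → k, ∑ y' : Ix r d C → k,
      (if y ox ≠ 0 ∧ y' ox ≠ 0 then ind (Ex c : Kx r d C Φ → _) y y' else 0) = (A.card : ℝ) := by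
    rw [← Fintype.sum_prod_type' (fun y y' : Ix r d C → k =>
      (if y ox ≠ 0 ∧ y' ox ≠ 0 then ind (Ex c : Kx r d C Φ → _) y y' else 0))]
    rw [hA, Finset.card_filter]
    push_cast
    refine Finset.sum_congr rfl fun p _ => ?_
    unfold ind
    by_cases h2 : p.1 ox ≠ 0 ∧ p.2 ox ≠ 0
    · by_cases h3 : ∀ κ : Kx r d C Φ, bil (Ex c κ) p.1 p.2 = 0
      · rw [if_pos h2, if_pos h3, if_pos ⟨h2, h3⟩]
      · rw [if_pos h2, if_neg h3, if_neg (fun h => h3 h.2)]
    · rw [if_neg h2, if_neg (fun h => h2 h.1)]
  have h2 : B.card = A.card := by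
    refine Finset.card_nbij'
      (fun p => (fun i => p.1 * yhat p.2.2 i, fun i => p.2.1 * yhat p.2.2 i))
      (fun p => (p.1 ox, p.2 ox, fun j => p.1 (sgl j, 0, false) / p.1 ox)) ?_ ?_ ?_ ?_
    · rintro ⟨s, t, x⟩ hp
      simp only [hB, coe_product, coe_filter, mem_univ, true_and, Set.mem_prod,
        Set.mem_ofPred_eq] at hp
      simp only [hA, coe_filter, mem_univ, true_and, Set.mem_ofPred_eq, yhat_ox, mul_one]
      exact ⟨⟨hp.1, hp.2.1⟩, forward c hC x hp.2.2 s t⟩
    · rintro ⟨y, y'⟩ hp
      simp only [hA, coe_filter, mem_univ, true_and, Set.mem_ofPred_eq] at hp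
      simp only [hB, coe_product, coe_filter, mem_univ, true_and, Set.mem_prod,
        Set.mem_ofPred_eq]
      exact ⟨hp.1.1, hp.1.2, (backward c hC y y' hp.1.1 hp.1.2 hp.2).2.2⟩
    · rintro ⟨s, t, x⟩ hp
      simp only [hB, coe_product, coe_filter, mem_univ, true_and, Set.mem_prod,
        Set.mem_ofPred_eq] at hp
      simp only [yhat_ox, mul_one, Prod.mk.injEq, true_and]
      funext j
      have h3 : yhat x ((sgl j, 0, false) : Ix r d C) = x j := by
        simp [yhat, sgn, mval_sgl]
      rw [h3, mul_div_cancel_left₀ _ hp.1]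
    · rintro ⟨y, y'⟩ hp
      simp only [hA, coe_filter, mem_univ, true_and, Set.mem_ofPred_eq] at hp
      have h3 := backward c hC y y' hp.1.1 hp.1.2 hp.2
      simp only [Prod.mk.injEq]
      exact ⟨funext fun i => (h3.1 i).symm, funext fun i => (h3.2.1 i).symm⟩
  have h3 : ((univ.filter fun s : k => s ≠ 0).card : ℝ) = (Fintype.card k : ℝ) - 1 := by
    rw [Finset.filter_ne', Finset.card_erase_of_mem (mem_univ _), Finset.card_univ,
      Nat.cast_sub Fintype.card_pos, Nat.cast_one]
  rw [h1, ← h2, hB, Finset.card_product, Finset.card_product]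
  push_cast
  rw [h3]
  unfold zcount
  ring

end

end Pool.Agent.Helper29.Zeta
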